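import Mathlib

set_option autoImplicit false

open MeasureTheory Set Filter Topology
open scoped ContDiff

namespace Pool.Agent.ChernSimons

/-- A smooth truncation: `chi B y = y` for `|y| ≤ B`, `chi B y = 0` for `|y| ≥ 2B`. -/
noncomputable def chi (B y : ℝ) : ℝ := y * Real.smoothTransition (2 - (y / B) ^ 2)

lemma chi_contDiff (B : ℝ) : ContDiff ℝ ∞ (chi B) := by
  unfold chi
  have h1 : ContDiff ℝ ∞ fun y : ℝ => 2 - (y / B) ^ 2 := by fun_prop
  have h2 : ContDiff ℝ ∞ fun y : ℝ => Real.smoothTransition (2 - (y / B) ^ 2) :=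
    Real.smoothTransition.contDiff.comp h1
  exact contDiff_id.mul h2

lemma chi_eq {B y : ℝ} (hB : 0 < B) (hy : |y| ≤ B) : chi B y = y := by
  have h1 : (y / B) ^ 2 ≤ 1 := by
    rw [sq_le_one_iff_abs_le_one, abs_div, abs_of_pos hB, div_le_one hB]
    exact hy
  rw [chi, Real.smoothTransition.one_of_one_le (by linarith), mul_one]

lemma chi_eq_zero {B y : ℝ} (hB : 0 < B) (hy : 2 * B ≤ |y|) : chi B y = 0 := by
  have h1 : 2 ≤ (y / B) ^ 2 := by
    have h2 : 2 ≤ |y / B| := by
      rw [abs_div, abs_of_pos hB, le_div_iff₀ hB]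
      exact hy
    rw [← sq_abs]
    nlinarith
  rw [chi, Real.smoothTransition.zero_of_nonpos (by linarith), mul_zero]

lemma abs_chi_le {B : ℝ} (hB : 0 < B) (y : ℝ) : |chi B y| ≤ 2 * B := by
  by_cases hy : 2 * B ≤ |y|
  · rw [chi_eq_zero hB hy, abs_zero]
    positivity
  · push Not at hy
    rw [chi, abs_mul, abs_of_nonneg (Real.smoothTransition.nonneg _)]
    calc |y| * Real.smoothTransition (2 - (y / B) ^ 2) ≤ |y| * 1 := by
          gcongr
          exact Real.smoothTransition.le_one _
      _ ≤ 2 * B := by linarith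

lemma chi_lipschitz {B : ℝ} (hB : 0 < B) : ∃ L : ℝ, 0 ≤ L ∧ ∀ c v w : ℝ,
    |chi B (c * Real.exp v) - chi B (c * Real.exp w)| ≤ L * |v - w| := by
  have hd : ContDiff ℝ ∞ (chi B) := chi_contDiff B
  have hd1 : Differentiable ℝ (chi B) := hd.differentiable (by simp)
  have hc : Continuous (deriv (chi B)) := hd.continuous_deriv (by simp)
  have hcs : HasCompactSupport (chi B) := by
    refine HasCompactSupport.intro (isCompact_closedBall (0:ℝ) (2 * B)) fun y hy => ?_
    refine chi_eq_zero hB ?_
    simp only [Metric.mem_closedBall, dist_zero_right, Real.norm_eq_abs, not_le] at hy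
    exact hy.le
  have hcs' : HasCompactSupport (fun y => y * deriv (chi B) y) := hcs.deriv.mul_left
  obtain ⟨L, hL⟩ := (by fun_prop : Continuous fun y => y * deriv (chi B) y).bounded_above_of_compact_support
    hcs'
  have hL0 : 0 ≤ L := (norm_nonneg _).trans (hL 0)
  refine ⟨L, hL0, fun c v w => ?_⟩
  have h1 : ∀ v : ℝ, HasDerivAt (fun v => chi B (c * Real.exp v))
      ((c * Real.exp v) * deriv (chi B) (c * Real.exp v)) v := by
    intro v
    have h2 : HasDerivAt (fun v => c * Real.exp v) (c * Real.exp v) v :=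
      (Real.hasDerivAt_exp v).const_mul c
    have h3 := (hd1 (c * Real.exp v)).hasDerivAt.comp v h2
    rw [mul_comm] at h3
    exact h3
  have h2 := Convex.norm_image_sub_le_of_norm_hasDerivWithin_le (f := fun v => chi B (c * Real.exp v))
    (f' := fun v => (c * Real.exp v) * deriv (chi B) (c * Real.exp v)) (s := univ) (C := L)
    (x := w) (y := v) (fun x _ => (h1 x).hasDerivWithinAt) (fun x _ => hL _) convex_univ
    (mem_univ _) (mem_univ _)
  simpa [Real.norm_eq_abs] using h2

end Pool.Agent.ChernSimons
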