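import Pool.Agent.Lib.MP_ad5d82_an.Ode
import Pool.Agent.Lib.MP_ad5d82_an.Trunc

set_option autoImplicit false

open MeasureTheory Set Filter Topology
open scoped ContDiff

namespace Pool.Agent.ChernSimons

variable {ι : Type*} [Fintype ι]

/-- sum of the absolute values of the entries -/
noncomputable def msum (M : Matrix ι ι ℝ) : ℝ := ∑ a, ∑ b, |M a b|

lemma msum_nonneg (M : Matrix ι ι ℝ) : 0 ≤ msum M :=
  Finset.sum_nonneg fun _ _ => Finset.sum_nonneg fun _ _ => abs_nonneg _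

lemma row_le_msum (M : Matrix ι ι ℝ) (a : ι) : ∑ b, |M a b| ≤ msum M :=
  Finset.single_le_sum (f := fun a => ∑ b, |M a b|)
    (fun _ _ => Finset.sum_nonneg fun _ _ => abs_nonneg _) (Finset.mem_univ a)

lemma abs_mulVec_le (M : Matrix ι ι ℝ) (a : ι) (x : ι → ℝ) {X : ℝ} (hX : 0 ≤ X)
    (hx : ∀ b, |x b| ≤ X) : |∑ b, M a b * x b| ≤ msum M * X := by
  calc |∑ b, M a b * x b| ≤ ∑ b, |M a b * x b| := Finset.abs_sum_le_sum_abs _ _
    _ ≤ ∑ b, |M a b| * X := Finset.sum_le_sum fun b _ => by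
        rw [abs_mul]
        exact mul_le_mul_of_nonneg_left (hx b) (abs_nonneg _)
    _ = (∑ b, |M a b|) * X := by rw [Finset.sum_mul]
    _ ≤ msum M * X := mul_le_mul_of_nonneg_right (row_le_msum M a) hX

/-- the polynomial `X_b (MX)_b - X_b` -/
noncomputable def pq (M : Matrix ι ι ℝ) (X : ι → ℝ) (b : ι) : ℝ := X b * (∑ c, M b c * X c) - X b

/-- the right hand side of the system (divided by `λ`) -/
noncomputable def quad (M : Matrix ι ι ℝ) (X : ι → ℝ) (a : ι) : ℝ := ∑ b, M a b * pq M X b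

lemma abs_pq_le (M : Matrix ι ι ℝ) (X : ι → ℝ) {R : ℝ} (hR : 0 ≤ R) (hX : ∀ b, |X b| ≤ R) (b : ι) :
    |pq M X b| ≤ R * (msum M * R) + R := by
  unfold pq
  refine (abs_sub _ _).trans ?_
  rw [abs_mul]
  have h1 := abs_mulVec_le M b X hR hX
  have h2 := msum_nonneg M
  gcongr
  · exact hX b
  · exact hX b

lemma abs_quad_le (M : Matrix ι ι ℝ) (X : ι → ℝ) {R : ℝ} (hR : 0 ≤ R) (hX : ∀ b, |X b| ≤ R)
    (a : ι) : |quad M X a| ≤ msum M * (R * (msum M * R) + R) :=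
  abs_mulVec_le M a _ (by have := msum_nonneg M; positivity) (abs_pq_le M X hR hX)

lemma abs_pq_sub_le (M : Matrix ι ι ℝ) (X Y : ι → ℝ) {R D : ℝ} (hR : 0 ≤ R) (hD : 0 ≤ D)
    (hX : ∀ b, |X b| ≤ R) (hY : ∀ b, |Y b| ≤ R) (hXY : ∀ b, |X b - Y b| ≤ D) (b : ι) :
    |pq M X b - pq M Y b| ≤ (2 * msum M * R + 1) * D := by
  have h0 := msum_nonneg M
  have h1 := abs_mulVec_le M b X hR hX
  have h2 := abs_mulVec_le M b (fun c => X c - Y c) hD hXY
  have h3 : ∑ c, M b c * (X c - Y c) = ∑ c, M b c * X c - ∑ c, M b c * Y c := by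
    rw [← Finset.sum_sub_distrib]
    exact Finset.sum_congr rfl fun c _ => by ring
  rw [h3] at h2
  have h4 : pq M X b - pq M Y b = (X b - Y b) * (∑ c, M b c * X c)
      + Y b * (∑ c, M b c * X c - ∑ c, M b c * Y c) - (X b - Y b) := by
    unfold pq
    ring
  rw [h4]
  have h5 : |(X b - Y b) * (∑ c, M b c * X c)| ≤ D * (msum M * R) := by
    rw [abs_mul]
    gcongr
    exact hXY b
  have h6 : |Y b * (∑ c, M b c * X c - ∑ c, M b c * Y c)| ≤ R * (msum M * D) := by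
    rw [abs_mul]
    gcongr
    exact hY b
  calc |(X b - Y b) * (∑ c, M b c * X c)
      + Y b * (∑ c, M b c * X c - ∑ c, M b c * Y c) - (X b - Y b)|
      ≤ |(X b - Y b) * (∑ c, M b c * X c) + Y b * (∑ c, M b c * X c - ∑ c, M b c * Y c)|
        + |X b - Y b| := abs_sub _ _
    _ ≤ |(X b - Y b) * (∑ c, M b c * X c)| + |Y b * (∑ c, M b c * X c - ∑ c, M b c * Y c)|
        + |X b - Y b| := by gcongr; exact abs_add_le _ _
    _ ≤ D * (msum M * R) + R * (msum M * D) + D := by gcongr; exact hXY b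
    _ = (2 * msum M * R + 1) * D := by ring

lemma abs_quad_sub_le (M : Matrix ι ι ℝ) (X Y : ι → ℝ) {R D : ℝ} (hR : 0 ≤ R) (hD : 0 ≤ D)
    (hX : ∀ b, |X b| ≤ R) (hY : ∀ b, |Y b| ≤ R) (hXY : ∀ b, |X b - Y b| ≤ D) (a : ι) :
    |quad M X a - quad M Y a| ≤ msum M * ((2 * msum M * R + 1) * D) := by
  have h0 := msum_nonneg M
  have h1 := abs_mulVec_le M a (fun b => pq M X b - pq M Y b) (X := (2 * msum M * R + 1) * D)
    (by positivity) (abs_pq_sub_le M X Y hR hD hX hY hXY)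
  have h2 : ∑ b, M a b * (pq M X b - pq M Y b) = quad M X a - quad M Y a := by
    unfold quad
    rw [← Finset.sum_sub_distrib]
    exact Finset.sum_congr rfl fun c _ => by ring
  rwa [h2] at h1

/-- the truncated densities -/
noncomputable def tU (B : ℝ) (N : ι → ℕ) (s : ℝ) (v : ι → ℝ) (b : ι) : ℝ :=
  chi B (s ^ N b * Real.exp (v b))

/-- the truncated vector field -/
noncomputable def tF (M : Matrix ι ι ℝ) (lam B : ℝ) (N : ι → ℕ) (s : ℝ) (v : ι → ℝ) : ι → ℝ :=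
  fun a => lam * quad M (tU B N s v) a

lemma tF_contDiff (M : Matrix ι ι ℝ) (lam B : ℝ) (N : ι → ℕ) :
    ContDiff ℝ ∞ (Function.uncurry (tF M lam B N)) := by
  have h1 : ∀ b : ι, ContDiff ℝ ∞ fun p : ℝ × (ι → ℝ) => tU B N p.1 p.2 b := by
    intro b
    unfold tU
    refine (chi_contDiff B).comp ?_
    have : ContDiff ℝ ∞ fun p : ℝ × (ι → ℝ) => p.2 b :=
      (contDiff_apply ℝ ℝ b).comp contDiff_snd
    have h2 : ContDiff ℝ ∞ fun p : ℝ × (ι → ℝ) => Real.exp (p.2 b) := this.exp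
    exact (contDiff_fst.pow _).mul h2
  rw [contDiff_pi]
  intro a
  simp only [Function.uncurry_def, tF, quad, pq]
  refine contDiff_const.mul ?_
  refine ContDiff.sum fun b _ => ?_
  refine contDiff_const.mul (ContDiff.sub ((h1 b).mul ?_) (h1 b))
  exact ContDiff.sum fun c _ => contDiff_const.mul (h1 c)

lemma tF_bound (M : Matrix ι ι ℝ) {lam B : ℝ} (hlam : 0 < lam) (hB : 0 < B) (N : ι → ℕ) :
    ∃ C : ℝ, 0 ≤ C ∧ ∀ s v, ‖tF M lam B N s v‖ ≤ C := by
  have h0 := msum_nonneg M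
  refine ⟨lam * (msum M * (2 * B * (msum M * (2 * B)) + 2 * B)), by positivity, fun s v => ?_⟩
  rw [pi_norm_le_iff_of_nonneg (by positivity)]
  intro a
  rw [tF, Real.norm_eq_abs, abs_mul, abs_of_pos hlam]
  gcongr
  exact abs_quad_le M _ (by positivity) (fun b => abs_chi_le hB _) a

lemma tF_lipschitz (M : Matrix ι ι ℝ) {lam B : ℝ} (hlam : 0 < lam) (hB : 0 < B) (N : ι → ℕ) :
    ∃ L : ℝ, 0 ≤ L ∧ ∀ s v w, ‖tF M lam B N s v - tF M lam B N s w‖ ≤ L * ‖v - w‖ := by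
  have h0 := msum_nonneg M
  obtain ⟨L, hL0, hL⟩ := chi_lipschitz hB
  refine ⟨lam * (msum M * ((2 * msum M * (2 * B) + 1) * L)), by positivity, fun s v w => ?_⟩
  rw [pi_norm_le_iff_of_nonneg (by positivity)]
  intro a
  have h1 : (tF M lam B N s v - tF M lam B N s w) a
      = lam * (quad M (tU B N s v) a - quad M (tU B N s w) a) := by
    simp only [tF, Pi.sub_apply]
    ring
  rw [h1, Real.norm_eq_abs, abs_mul, abs_of_pos hlam]
  have h2 := abs_quad_sub_le M (tU B N s v) (tU B N s w) (R := 2 * B) (D := L * ‖v - w‖)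
    (by positivity) (by positivity) (fun b => abs_chi_le hB _) (fun b => abs_chi_le hB _)
    (fun b => (hL _ _ _).trans (by
      gcongr
      have := norm_le_pi_norm (v - w) b
      simpa [Real.norm_eq_abs] using this)) a
  calc lam * |quad M (tU B N s v) a - quad M (tU B N s w) a|
      ≤ lam * (msum M * ((2 * msum M * (2 * B) + 1) * (L * ‖v - w‖))) := by gcongr
    _ = _ := by ring

/-- the bilinear form `x, y ↦ Σ d_a x_a (My)_a` -/
noncomputable def bil (M : Matrix ι ι ℝ) (d : ι → ℝ) (x y : ι → ℝ) : ℝ :=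
  ∑ a, d a * x a * ∑ b, M a b * y b

lemma bil_comm (M : Matrix ι ι ℝ) (d : ι → ℝ) (hsym : ∀ a b, d a * M a b = d b * M b a)
    (x y : ι → ℝ) : bil M d x y = bil M d y x := by
  unfold bil
  simp only [Finset.mul_sum]
  rw [Finset.sum_comm]
  refine Finset.sum_congr rfl fun a _ => Finset.sum_congr rfl fun b _ => ?_
  have := hsym b a
  linear_combination (x b * y a) * this

lemma abs_bil_le (M : Matrix ι ι ℝ) (d : ι → ℝ) (hd : ∀ a, 0 < d a) (x y : ι → ℝ) {X Y : ℝ}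
    (hX : 0 ≤ X) (hY : 0 ≤ Y) (hx : ∀ a, |x a| ≤ X) (hy : ∀ a, |y a| ≤ Y) :
    |bil M d x y| ≤ (∑ a, d a) * X * (msum M * Y) := by
  unfold bil
  calc |∑ a, d a * x a * ∑ b, M a b * y b| ≤ ∑ a, |d a * x a * ∑ b, M a b * y b| :=
        Finset.abs_sum_le_sum_abs _ _
    _ ≤ ∑ a, d a * (X * (msum M * Y)) := Finset.sum_le_sum fun a _ => by
        rw [abs_mul, abs_mul, abs_of_pos (hd a), mul_assoc]
        have h1 := abs_mulVec_le M a y hY hy
        have h2 := (hd a).le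
        gcongr
        exact hx a
    _ = _ := by rw [← Finset.sum_mul]; ring

lemma hasDerivAt_bil (M : Matrix ι ι ℝ) (d : ι → ℝ) {x y : ℝ → ι → ℝ} {x' y' : ι → ℝ} {s : ℝ}
    (hx : ∀ a, HasDerivAt (fun s => x s a) (x' a) s) (hy : ∀ a, HasDerivAt (fun s => y s a) (y' a) s) :
    HasDerivAt (fun s => bil M d (x s) (y s)) (bil M d x' (y s) + bil M d (x s) y') s := by
  unfold bil
  rw [← Finset.sum_add_distrib]
  refine HasDerivAt.fun_sum fun a _ => ?_
  have h1 : HasDerivAt (fun s => ∑ b, M a b * y s b) (∑ b, M a b * y' b) s :=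
    HasDerivAt.fun_sum fun b _ => (hy b).const_mul _
  exact ((hx a).const_mul (d a)).mul h1

end Pool.Agent.ChernSimons
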