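import Pool.Agent.Lib.MP_ad5d82_an.Planar

set_option autoImplicit false

open MeasureTheory Set Filter Topology
open scoped ContDiff

namespace Pool.Agent.ChernSimons

lemma finrank_plane : Module.finrank ℝ (ℝ × ℝ) = 2 := by simp

lemma inv_norm_integrableOn (R : ℝ) :
    IntegrableOn (fun x : ℝ × ℝ => ‖x‖⁻¹) (Metric.closedBall 0 R) volume := by
  have h1 : Integrable (fun x : ℝ × ℝ => (Iic R).indicator (fun r : ℝ => r⁻¹) ‖x‖) volume := by
    rw [integrable_fun_norm_addHaar, finrank_plane]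
    have h2 : IntegrableOn (fun _ : ℝ => (1:ℝ)) (Ioc 0 R) volume := by
      simp
    have h3 : IntegrableOn ((Ioc 0 R).indicator fun _ : ℝ => (1:ℝ)) (Ioi 0) volume := by
      rw [integrableOn_indicator_iff measurableSet_Ioc]
      exact h2.mono_set inter_subset_left
    refine h3.congr_fun (fun y hy => ?_) measurableSet_Ioi
    have hy0 : (0:ℝ) < y := hy
    by_cases hyR : y ≤ R
    · simp [indicator_of_mem, mem_Ioc, hy0, hyR, mem_Iic, hy0.ne']
    · simp [indicator_of_notMem, mem_Ioc, hy0, hyR, mem_Iic]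
  rw [← integrable_indicator_iff Metric.isClosed_closedBall.measurableSet]
  refine h1.congr (Eventually.of_forall fun x => ?_)
  by_cases hx : ‖x‖ ≤ R
  · simp [indicator_of_mem, hx]
  · simp [indicator_of_notMem, hx]

lemma abs_log_Qd_le (p x : ℝ × ℝ) : |Real.log (Qd p x)| ≤ 2 * ‖x - p‖⁻¹ + Qd p x := by
  rcases eq_or_ne x p with rfl | hx
  · simp [Qd]
  have hQ := Qd_pos hx
  have hn : 0 < ‖x - p‖ := norm_pos_iff.2 (sub_ne_zero.2 hx)
  rw [abs_le]
  constructor
  · have h1 : Real.log (Qd p x) ≥ Real.log (‖x - p‖ ^ 2) :=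
      Real.log_le_log (by positivity) (norm_sq_le_Qd p x)
    have h2 : Real.log (‖x - p‖ ^ 2) = -(2 * Real.log (‖x - p‖⁻¹)) := by
      rw [Real.log_pow, Real.log_inv]
      push_cast
      ring
    have h3 : Real.log (‖x - p‖⁻¹) ≤ ‖x - p‖⁻¹ - 1 := Real.log_le_sub_one_of_pos (by positivity)
    linarith
  · have h1 := Real.log_le_sub_one_of_pos hQ
    have h2 : 0 < ‖x - p‖⁻¹ := by positivity
    linarith

lemma log_Qd_measurable (p : ℝ × ℝ) : Measurable fun x => Real.log (Qd p x) :=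
  Real.measurable_log.comp (Qd_continuous p).measurable

lemma locallyIntegrable_log_Qd (p : ℝ × ℝ) :
    LocallyIntegrable (fun x => Real.log (Qd p x)) volume := by
  rw [locallyIntegrable_iff]
  intro K hK
  obtain ⟨R, hR⟩ := hK.isBounded.subset_closedBall p
  refine IntegrableOn.mono_set ?_ hR
  have h1 : IntegrableOn (fun x : ℝ × ℝ => ‖x - p‖⁻¹) (Metric.closedBall p R) volume := by
    have h2 := (inv_norm_integrableOn R).integrable_indicator Metric.isClosed_closedBall.measurableSet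
    have h3 := h2.comp_sub_right p
    rw [← integrable_indicator_iff Metric.isClosed_closedBall.measurableSet]
    refine h3.congr (Eventually.of_forall fun x => ?_)
    by_cases hx : dist x p ≤ R
    · have hx' : ‖x - p‖ ≤ R := by rwa [← dist_eq_norm]
      simp [indicator_of_mem, hx, hx']
    · have hx' : ¬ ‖x - p‖ ≤ R := by rwa [← dist_eq_norm]
      simp [indicator_of_notMem, hx, hx']
  have h2 : IntegrableOn (Qd p) (Metric.closedBall p R) volume :=
    (Qd_continuous p).continuousOn.integrableOn_compact (isCompact_closedBall p R)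
  refine Integrable.mono' ((h1.const_mul 2).add h2) (log_Qd_measurable p).aestronglyMeasurable
    (Eventually.of_forall fun x => ?_)
  simpa [Real.norm_eq_abs] using abs_log_Qd_le p x

lemma integral_radial_half : ∫ r in Ioi (0:ℝ), r * ((1 + r ^ 2) ^ 2)⁻¹ = 1 / 2 := by
  have h1 : ∀ r ∈ Ici (0:ℝ), HasDerivAt (fun r : ℝ => -(1 / 2) * (1 + r ^ 2)⁻¹)
      (r * ((1 + r ^ 2) ^ 2)⁻¹) r := by
    intro r _
    have h2 : HasDerivAt (fun r : ℝ => 1 + r ^ 2) (2 * r) r := by
      have := (hasDerivAt_pow 2 r).const_add (1:ℝ)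
      simpa using this
    have hne : (1 + r ^ 2) ≠ 0 := by positivity
    have h3 := (h2.inv hne).const_mul (-(1 / 2))
    refine h3.congr_deriv ?_
    field_simp
  have h2 : Tendsto (fun r : ℝ => -(1 / 2) * (1 + r ^ 2)⁻¹) atTop (𝓝 0) := by
    have h3 : Tendsto (fun r : ℝ => 1 + r ^ 2) atTop atTop :=
      tendsto_atTop_add_const_left _ _ (tendsto_pow_atTop (by norm_num))
    have h4 := h3.inv_tendsto_atTop.const_mul (-(1 / 2) : ℝ)
    simpa using h4
  have h3 := integral_Ioi_of_hasDerivAt_of_nonneg' h1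
    (fun r hr => by have : (0:ℝ) < r := hr; positivity) h2
  rw [h3]
  norm_num

lemma integral_peak : ∫ y : ℝ × ℝ, ((1 + (y.1 ^ 2 + y.2 ^ 2)) ^ 2)⁻¹ = Real.pi := by
  rw [← integral_comp_polarCoord_symm]
  have h1 : ∀ q : ℝ × ℝ, q.1 • ((1 + ((polarCoord.symm q).1 ^ 2 + (polarCoord.symm q).2 ^ 2)) ^ 2)⁻¹
      = q.1 * ((1 + q.1 ^ 2) ^ 2)⁻¹ * (1:ℝ) := by
    intro q
    have h2 : (polarCoord.symm q).1 ^ 2 + (polarCoord.symm q).2 ^ 2 = q.1 ^ 2 := by
      simp only [polarCoord_symm_apply]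
      have := Real.cos_sq_add_sin_sq q.2
      nlinarith
    rw [h2, smul_eq_mul, mul_one]
  simp_rw [h1]
  rw [polarCoord_target, Measure.volume_eq_prod,
    setIntegral_prod_mul (fun r : ℝ => r * ((1 + r ^ 2) ^ 2)⁻¹) (fun _ : ℝ => (1:ℝ)),
    integral_radial_half]
  have h2 : ∫ _θ in Ioo (-Real.pi) Real.pi, (1:ℝ) = 2 * Real.pi := by
    rw [setIntegral_const, smul_eq_mul, mul_one, Real.volume_real_Ioo_of_le (by
      have := Real.pi_pos
      linarith)]
    ring
  rw [h2]
  ring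

/-- the normalised peak function -/
noncomputable def peak (y : ℝ × ℝ) : ℝ := Real.pi⁻¹ * ((1 + (y.1 ^ 2 + y.2 ^ 2)) ^ 2)⁻¹

lemma peak_tendsto {φ : ℝ × ℝ → ℝ} (hφ : Continuous φ) (hc : HasCompactSupport φ) (p : ℝ × ℝ) :
    Tendsto (fun c : ℝ => ∫ x, (c ^ 2 * peak (c • (p - x))) * φ x) atTop (𝓝 (φ p)) := by
  have h := tendsto_integral_comp_smul_smul_of_integrable' (μ := (volume : Measure (ℝ × ℝ)))
    (φ := peak) (fun y => by unfold peak; positivity) (by
      unfold peak
      rw [integral_const_mul, integral_peak, inv_mul_cancel₀ Real.pi_ne_zero]) ?_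
    (g := φ) (x₀ := p) (hφ.integrable_of_hasCompactSupport hc) hφ.continuousAt
  · simpa [finrank_plane] using h
  · rw [finrank_plane]
    have h1 : ∀ y : ℝ × ℝ, ‖y‖ ^ 2 * peak y ≤ Real.pi⁻¹ * (‖y‖ ^ 2 + 1)⁻¹ := by
      intro y
      have h2 : ‖y‖ ^ 2 ≤ y.1 ^ 2 + y.2 ^ 2 := by
        have := norm_sq_le_Qd 0 y
        simpa [Qd] using this
      have h3 : ‖y‖ ^ 2 * ((1 + (y.1 ^ 2 + y.2 ^ 2)) ^ 2)⁻¹ ≤ (‖y‖ ^ 2 + 1)⁻¹ := by
        rw [← div_eq_mul_inv, div_le_iff₀ (by positivity), ← div_eq_inv_mul,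
          le_div_iff₀ (by positivity)]
        have h4 : 0 ≤ ‖y‖ ^ 2 := by positivity
        nlinarith
      unfold peak
      calc ‖y‖ ^ 2 * (Real.pi⁻¹ * ((1 + (y.1 ^ 2 + y.2 ^ 2)) ^ 2)⁻¹)
          = Real.pi⁻¹ * (‖y‖ ^ 2 * ((1 + (y.1 ^ 2 + y.2 ^ 2)) ^ 2)⁻¹) := by ring
        _ ≤ Real.pi⁻¹ * (‖y‖ ^ 2 + 1)⁻¹ := by
            have := Real.pi_pos
            gcongr
    have h2 : Tendsto (fun y : ℝ × ℝ => Real.pi⁻¹ * (‖y‖ ^ 2 + 1)⁻¹) (Bornology.cobounded (ℝ × ℝ))
        (𝓝 0) := by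
      have h3 : Tendsto (fun y : ℝ × ℝ => ‖y‖) (Bornology.cobounded (ℝ × ℝ)) atTop :=
        tendsto_norm_cobounded_atTop
      have h4 : Tendsto (fun r : ℝ => r ^ 2 + 1) atTop atTop :=
        tendsto_atTop_add_const_right _ _ (tendsto_pow_atTop (by norm_num))
      have h5 := ((h4.comp h3).inv_tendsto_atTop).const_mul Real.pi⁻¹
      simpa using h5
    refine squeeze_zero (fun y => ?_) h1 h2
    unfold peak
    have := Real.pi_pos
    positivity

lemma peak_eq (p x : ℝ × ℝ) {c : ℝ} (hc : 0 < c) :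
    c ^ 2 * peak (c • (p - x)) = Real.pi⁻¹ * ((c ^ 2)⁻¹ / (Qd p x + (c ^ 2)⁻¹) ^ 2) := by
  have hQ := Qd_nonneg p x
  have h1 : (c • (p - x)).1 ^ 2 + (c • (p - x)).2 ^ 2 = c ^ 2 * Qd p x := by
    simp only [Qd, Prod.smul_fst, Prod.smul_snd, smul_eq_mul, Prod.fst_sub, Prod.snd_sub]
    ring
  unfold peak
  rw [h1]
  have h2 : (1 + c ^ 2 * Qd p x) = c ^ 2 * (Qd p x + (c ^ 2)⁻¹) := by
    field_simp
    ring
  rw [h2]
  have h3 : Qd p x + (c ^ 2)⁻¹ ≠ 0 := by positivity
  field_simp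

/-- The fundamental solution: `Δ log|x-p|² = 4π δ_p`. -/
theorem log_Qd_laplacian (p : ℝ × ℝ) {φ : ℝ × ℝ → ℝ} (hφ : ContDiff ℝ ∞ φ)
    (hc : HasCompactSupport φ) :
    ∫ x, Real.log (Qd p x) * lap φ x = 4 * Real.pi * φ p := by
  have hφ1 : ContDiff ℝ ∞ (fderiv ℝ φ) := hφ.fderiv_right (by exact_mod_cast le_top)
  have hφ2 : ContDiff ℝ ∞ (fderiv ℝ (fderiv ℝ φ)) := hφ1.fderiv_right (by exact_mod_cast le_top)
  have hc2 : HasCompactSupport (fderiv ℝ (fderiv ℝ φ)) := (hc.fderiv ℝ).fderiv ℝ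
  have hlap : lap φ = fun x => fderiv ℝ (fderiv ℝ φ) x (1, 0) (1, 0)
      + fderiv ℝ (fderiv ℝ φ) x (0, 1) (0, 1) := by
    ext x
    simp [lap, iteratedFDeriv_two_apply]
  have hlapc : Continuous (lap φ) := by
    rw [hlap]
    exact ((hφ2.continuous.clm_apply continuous_const).clm_apply continuous_const).add
      ((hφ2.continuous.clm_apply continuous_const).clm_apply continuous_const)
  have hlaps : HasCompactSupport (lap φ) := by
    rw [hlap]
    refine hc2.mono fun x hx => ?_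
    simp only [Function.mem_support, ne_eq] at hx ⊢
    intro h
    exact hx (by rw [h]; simp)
  have hdom : Integrable (fun x => (|Real.log (Qd p x)| + Qd p x) * |lap φ x|) volume := by
    have h0 : LocallyIntegrable (fun x => |Real.log (Qd p x)|) volume := fun x =>
      (locallyIntegrable_log_Qd p x).norm
    have h1 : LocallyIntegrable (fun x => |Real.log (Qd p x)| + Qd p x) volume :=
      h0.add (Qd_continuous p).locallyIntegrable
    have h2 := h1.integrable_smul_right_of_hasCompactSupport (g := fun x => |lap φ x|)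
      hlapc.abs (hlaps.comp_left (g := fun y => |y|) abs_zero)
    simpa using h2
  -- the regularised identity
  have hreg : ∀ c : ℝ, 0 < c → ∫ x, Real.log (Qd p x + (c ^ 2)⁻¹) * lap φ x
      = 4 * Real.pi * ∫ x, (c ^ 2 * peak (c • (p - x))) * φ x := by
    intro c hcp
    have hε : 0 < (c ^ 2)⁻¹ := by positivity
    have h1 := green_radial (Ψ := fun s => Real.log (s + (c ^ 2)⁻¹))
      (Ψ1 := fun s => (s + (c ^ 2)⁻¹)⁻¹) (Ψ2 := fun s => -((s + (c ^ 2)⁻¹) ^ 2)⁻¹) p
      (fun s hs => by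
        have h2 : HasDerivAt (fun s : ℝ => s + (c ^ 2)⁻¹) 1 s := (hasDerivAt_id s).add_const _
        have h3 := h2.log (by positivity)
        simpa using h3)
      (fun s hs => by
        have h2 : HasDerivAt (fun s : ℝ => s + (c ^ 2)⁻¹) 1 s := (hasDerivAt_id s).add_const _
        have h3 := h2.inv (by positivity)
        refine h3.congr_deriv ?_
        rw [neg_div, one_div])
      (by
        refine ContinuousOn.neg (ContinuousOn.inv₀ (by fun_prop) fun s hs => ?_)
        have : (0:ℝ) ≤ s := hs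
        positivity)
      hφ hc
    rw [h1, ← integral_const_mul]
    refine integral_congr_ae (Eventually.of_forall fun x => ?_)
    simp only
    rw [peak_eq p x hcp]
    have hQ := Qd_nonneg p x
    have h3 : Qd p x + (c ^ 2)⁻¹ ≠ 0 := by positivity
    have h4 := Real.pi_ne_zero
    field_simp
    ring
  have hR : Tendsto (fun c : ℝ => ∫ x, Real.log (Qd p x + (c ^ 2)⁻¹) * lap φ x) atTop
      (𝓝 (4 * Real.pi * φ p)) := by
    have h1 := (peak_tendsto hφ.continuous hc p).const_mul (4 * Real.pi)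
    refine h1.congr' ?_
    filter_upwards [Ioi_mem_atTop (0:ℝ)] with c hc0
    exact (hreg c hc0).symm
  have hL : Tendsto (fun c : ℝ => ∫ x, Real.log (Qd p x + (c ^ 2)⁻¹) * lap φ x) atTop
      (𝓝 (∫ x, Real.log (Qd p x) * lap φ x)) := by
    refine tendsto_integral_filter_of_dominated_convergence
      (fun x => (|Real.log (Qd p x)| + Qd p x) * |lap φ x|) ?_ ?_ hdom ?_
    · refine Eventually.of_forall fun c => ?_
      have h1 : Measurable fun x => Real.log (Qd p x + (c ^ 2)⁻¹) :=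
        Real.measurable_log.comp ((Qd_continuous p).measurable.add_const _)
      exact (h1.mul hlapc.measurable).aestronglyMeasurable
    · filter_upwards [Ici_mem_atTop (1:ℝ)] with c hc1
      have hc1' : (1:ℝ) ≤ c := hc1
      have hne : ∀ᵐ x : ℝ × ℝ ∂volume, x ≠ p := by
        simp [ae_iff]
      filter_upwards [hne] with x hx
      have hQ := Qd_pos hx
      rw [norm_mul, Real.norm_eq_abs, Real.norm_eq_abs]
      gcongr
      have hε : 0 < (c ^ 2)⁻¹ := by positivity
      have hε1 : (c ^ 2)⁻¹ ≤ 1 := inv_le_one_of_one_le₀ (one_le_pow₀ hc1')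
      rw [abs_le]
      constructor
      · have h1 : Real.log (Qd p x) ≤ Real.log (Qd p x + (c ^ 2)⁻¹) :=
          Real.log_le_log hQ (by linarith)
        have h2 := neg_abs_le (Real.log (Qd p x))
        linarith
      · have h1 := Real.log_le_sub_one_of_pos (show 0 < Qd p x + (c ^ 2)⁻¹ by positivity)
        have h2 := abs_nonneg (Real.log (Qd p x))
        linarith
    · have hne : ∀ᵐ x : ℝ × ℝ ∂volume, x ≠ p := by
        simp [ae_iff]
      filter_upwards [hne] with x hx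
      have hQ := Qd_pos hx
      have h1 : Tendsto (fun c : ℝ => Qd p x + (c ^ 2)⁻¹) atTop (𝓝 (Qd p x + 0)) := by
        have h2 : Tendsto (fun c : ℝ => (c ^ 2)⁻¹) atTop (𝓝 0) :=
          (tendsto_pow_atTop (by norm_num)).inv_tendsto_atTop
        exact h2.const_add _
      rw [add_zero] at h1
      exact ((Real.continuousAt_log hQ.ne').tendsto.comp h1).mul_const _
  exact tendsto_nhds_unique hL hR

end Pool.Agent.ChernSimons
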