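import Pool.Agent.Lib.MP_ad5d82_an.Planar

set_option autoImplicit false

open MeasureTheory Set Filter Topology

namespace Pool.Agent.ChernSimons

/-- Integrability in the plane of a radial function of `|x - p|²`. -/
theorem integrable_radial {f : ℝ → ℝ} (hf : IntegrableOn f (Ioi 0)) (p : ℝ × ℝ) :
    Integrable (fun x => f (Qd p x)) volume := by
  have h1 : IntegrableOn (fun y : ℝ => y ^ (2 - 1) • f (y ^ 2)) (Ioi 0) := by
    have h2 := (integrableOn_Ioi_comp_rpow_iff' f (p := 2) (by norm_num)).2 hf
    refine h2.congr_fun (fun y hy => ?_) measurableSet_Ioi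
    simp only [Real.rpow_two]
    norm_num
  have h3 : Integrable (fun z : ℂ => (fun r : ℝ => f (r ^ 2)) ‖z‖) volume := by
    have h8 := (integrable_fun_norm_addHaar (E := ℂ) (volume : Measure ℂ)
      (f := fun r : ℝ => f (r ^ 2))).2
    rw [Complex.finrank_real_complex] at h8
    exact h8 h1
  have h4 : Integrable (fun x : ℝ × ℝ => f (x.1 ^ 2 + x.2 ^ 2)) volume := by
    have h5 := (Complex.volume_preserving_equiv_real_prod.symm).integrable_comp_emb
      (Complex.measurableEquivRealProd.symm.measurableEmbedding)
      (g := fun z : ℂ => (fun r : ℝ => f (r ^ 2)) ‖z‖)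
    have h6 := h5.2 h3
    refine h6.congr (Eventually.of_forall fun x => ?_)
    simp only [Function.comp]
    congr 1
    rw [← Complex.normSq_eq_norm_sq, Complex.normSq_apply]
    simp [Complex.measurableEquivRealProd]
    ring
  have h7 := h4.comp_sub_right p
  exact h7

end Pool.Agent.ChernSimons
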