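import Pool.Agent.Lib.MP_ad5d82_an.Radial
import Pool.Agent.Lib.MP_ad5d82_an.LogKernel
import Pool.Agent.Lib.MP_ad5d82_an.RadialInt

set_option autoImplicit false

open MeasureTheory Set Filter Topology
open scoped ContDiff Matrix

namespace Pool.Agent.ChernSimons

/-- A positive form is coercive. -/
lemma coercive_of_pos {ι : Type*} [Fintype ι] (M : Matrix ι ι ℝ) (d : ι → ℝ)
    (h : ∀ x : ι → ℝ, x ≠ 0 → 0 < bil M d x x) :
    ∃ cc : ℝ, 0 < cc ∧ ∀ x, cc * ∑ a, x a ^ 2 ≤ bil M d x x := by
  have hcont : Continuous fun x : ι → ℝ => bil M d x x := by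
    unfold bil
    fun_prop
  have hhom : ∀ (t : ℝ) (x : ι → ℝ), bil M d (t • x) (t • x) = t ^ 2 * bil M d x x := by
    intro t x
    unfold bil
    rw [Finset.mul_sum]
    refine Finset.sum_congr rfl fun a _ => ?_
    simp only [Pi.smul_apply, smul_eq_mul]
    have : ∑ b, M a b * (t * x b) = t * ∑ b, M a b * x b := by
      rw [Finset.mul_sum]
      exact Finset.sum_congr rfl fun b _ => by ring
    rw [this]
    ring
  have hsum : ∀ x : ι → ℝ, ∑ a, x a ^ 2 ≤ (Fintype.card ι : ℝ) * ‖x‖ ^ 2 := by
    intro x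
    calc ∑ a, x a ^ 2 ≤ ∑ _a : ι, ‖x‖ ^ 2 := Finset.sum_le_sum fun a _ => by
          rw [← sq_abs]
          have := norm_le_pi_norm x a
          rw [Real.norm_eq_abs] at this
          gcongr
      _ = (Fintype.card ι : ℝ) * ‖x‖ ^ 2 := by simp
  rcases (Metric.sphere (0 : ι → ℝ) 1).eq_empty_or_nonempty with he | hne
  · refine ⟨1, one_pos, fun x => ?_⟩
    rcases eq_or_ne x 0 with rfl | hx
    · simp [bil]
    · exfalso
      have : ‖x‖⁻¹ • x ∈ Metric.sphere (0 : ι → ℝ) 1 := by
        simp [norm_smul, norm_ne_zero_iff.2 hx]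
      rw [he] at this
      exact this
  · obtain ⟨x₀, hx₀, hmin⟩ := (isCompact_sphere (0 : ι → ℝ) 1).exists_isMinOn hne hcont.continuousOn
    have hx₀0 : x₀ ≠ 0 := by
      rintro rfl
      simp at hx₀
    have hc := h x₀ hx₀0
    set c := bil M d x₀ x₀ with hcdef
    have hlow : ∀ x, c * ‖x‖ ^ 2 ≤ bil M d x x := by
      intro x
      rcases eq_or_ne x 0 with rfl | hx
      · simp [bil]
      · have hn : ‖x‖ ≠ 0 := norm_ne_zero_iff.2 hx
        have h1 : ‖x‖⁻¹ • x ∈ Metric.sphere (0 : ι → ℝ) 1 := by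
          simp [norm_smul, hn]
        have h2 : c ≤ bil M d (‖x‖⁻¹ • x) (‖x‖⁻¹ • x) := hmin h1
        rw [hhom] at h2
        have h3 : 0 < ‖x‖ ^ 2 := by positivity
        calc c * ‖x‖ ^ 2 ≤ ((‖x‖⁻¹) ^ 2 * bil M d x x) * ‖x‖ ^ 2 := by gcongr
          _ = bil M d x x := by field_simp
    refine ⟨c / (Fintype.card ι + 1), by positivity, fun x => le_trans ?_ (hlow x)⟩
    rw [div_mul_eq_mul_div, div_le_iff₀ (by positivity)]
    have h4 := hsum x
    have h5 : 0 ≤ ‖x‖ ^ 2 := by positivity
    calc c * ∑ a, x a ^ 2 ≤ c * ((Fintype.card ι : ℝ) * ‖x‖ ^ 2) := by gcongr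
      _ ≤ c * ‖x‖ ^ 2 * (Fintype.card ι + 1) := by nlinarith [mul_nonneg hc.le h5]

/-- From a positive definite symmetrisation `diag(d) M` we get the three facts used for `M`. -/
lemma symm_facts {ι : Type*} [Fintype ι] [DecidableEq ι] (M : Matrix ι ι ℝ) (d : ι → ℝ)
    (hd : ∀ a, 0 < d a) (h : (Matrix.of fun a b => d a * M a b).PosDef) :
    (∀ a b, d a * M a b = d b * M b a) ∧ (∀ x, x ≠ 0 → 0 < bil M d x x) ∧
      (∀ y : ι → ℝ, ∃ x : ι → ℝ, ∀ a, ∑ b, M a b * x b = y a) := by
  have hval : ∀ x : ι → ℝ, star x ⬝ᵥ ((Matrix.of fun a b => d a * M a b) *ᵥ x) = bil M d x x := by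
    intro x
    simp only [bil, dotProduct, Matrix.mulVec, Matrix.of_apply, Pi.star_apply, star_trivial]
    refine Finset.sum_congr rfl fun a _ => ?_
    rw [Finset.mul_sum, Finset.mul_sum]
    exact Finset.sum_congr rfl fun b _ => by ring
  refine ⟨fun a b => ?_, fun x => ?_, fun y => ?_⟩
  · have := h.isHermitian.apply a b
    simp only [Matrix.of_apply, star_trivial] at this
    exact this.symm
  · intro hx
    rw [← hval]
    exact h.dotProduct_mulVec_pos hx
  · obtain ⟨x, hx⟩ := Matrix.mulVec_surjective_iff_isUnit.2 h.isUnit (fun a => d a * y a)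
    refine ⟨x, fun a => ?_⟩
    have h1 := congrFun hx a
    simp only [Matrix.mulVec, dotProduct, Matrix.of_apply] at h1
    have h2 : d a * ∑ b, M a b * x b = d a * y a := by
      rw [← h1, Finset.mul_sum]
      exact Finset.sum_congr rfl fun b _ => by ring
    exact mul_left_cancel₀ (hd a).ne' h2

lemma symm_facts_transpose {ι : Type*} [Fintype ι] [DecidableEq ι] (M : Matrix ι ι ℝ) (d : ι → ℝ)
    (hd : ∀ a, 0 < d a) (h : (Matrix.of fun a b => d a * M a b).PosDef) :
    (∀ a b, (d a)⁻¹ * M b a = (d b)⁻¹ * M a b) ∧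
      (∀ x, x ≠ 0 → 0 < bil M.transpose (fun a => (d a)⁻¹) x x) ∧
      (∀ y : ι → ℝ, ∃ x : ι → ℝ, ∀ a, ∑ b, M.transpose a b * x b = y a) := by
  obtain ⟨h1, h2, h3⟩ := symm_facts M d hd h
  refine ⟨fun a b => ?_, fun x => ?_, fun y => ?_⟩
  · have h4 := h1 a b
    have h5 := (hd a).ne'
    have h6 := (hd b).ne'
    field_simp
    linarith
  · have h4 : bil M.transpose (fun a => (d a)⁻¹) x x
        = bil M d (fun a => x a / d a) (fun a => x a / d a) := by
      unfold bil
      refine Finset.sum_congr rfl fun a _ => ?_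
      have h5 := (hd a).ne'
      have h7 : d a * (x a / d a) = x a := by field_simp
      rw [h7, mul_comm (d a)⁻¹, mul_assoc]
      congr 1
      rw [Finset.mul_sum]
      refine Finset.sum_congr rfl fun b _ => ?_
      have h6 := (hd b).ne'
      have h8 := h1 a b
      rw [Matrix.transpose_apply]
      have h9 : M a b = d b * M b a / d a := by
        field_simp
        linarith
      rw [h9]
      field_simp
    intro hx
    rw [h4]
    refine h2 _ fun h => hx ?_
    ext a
    have h10 := congrFun h a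
    simp only [Pi.zero_apply, div_eq_zero_iff, (hd a).ne', or_false] at h10
    exact h10
  · obtain ⟨x, hx⟩ := h3 (fun a => y a / d a)
    refine ⟨fun a => d a * x a, fun a => ?_⟩
    have h4 : ∑ b, M.transpose a b * (d b * x b) = d a * ∑ b, M a b * x b := by
      rw [Finset.mul_sum]
      refine Finset.sum_congr rfl fun b _ => ?_
      have h5 := h1 a b
      rw [Matrix.transpose_apply]
      linear_combination (-x b) * h5
    rw [h4, hx a]
    have := (hd a).ne'
    field_simp

/-- Existence of an `r`-parameter family of radial non-topological solutions, with all vortices at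
one point, for every real matrix with a positive definite symmetrisation. -/
theorem planar_solution {r : ℕ} (M : Matrix (Fin r) (Fin r) ℝ) (d : Fin r → ℝ) (hd : ∀ a, 0 < d a)
    (hsym : ∀ a b, d a * M a b = d b * M b a) (hpos : ∀ x, x ≠ 0 → 0 < bil M d x x)
    (hsurj : ∀ y : Fin r → ℝ, ∃ x : Fin r → ℝ, ∀ a, ∑ b, M a b * x b = y a)
    {lam : ℝ} (hlam : 0 < lam) (N : Fin r → ℕ) (p : ℝ × ℝ) :
    ∃ A : ℝ, ∀ α : Fin r → ℝ, (∀ a, α a ≤ A) → ∃ u : Fin r → ℝ × ℝ → ℝ,
      (∀ a, ContDiffOn ℝ ∞ (u a) {x | ∀ (b : Fin r) (_ : Fin (N b)), x ≠ p}) ∧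
      (∀ a, LocallyIntegrable (u a) volume) ∧
      (∀ a, LocallyIntegrable (fun x => quad M (fun b => Real.exp (u b x)) a) volume) ∧
      (∀ a, ∀ φ : ℝ × ℝ → ℝ, ContDiff ℝ ∞ φ → HasCompactSupport φ →
        ∫ x, u a x * lap φ x = (∫ x, lam * quad M (fun b => Real.exp (u b x)) a * φ x)
          + 4 * Real.pi * ∑ _j : Fin (N a), φ p) ∧
      (∀ a, Tendsto (fun x => Real.exp (u a x)) (cocompact (ℝ × ℝ)) (𝓝 0)) ∧
      (∀ a, Integrable (fun x => Real.exp (u a x)) volume) ∧
      (∀ a, Tendsto (fun x => u a x - N a * Real.log ((x.1 - p.1) ^ 2 + (x.2 - p.2) ^ 2))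
        (𝓝 p) (𝓝 (α a))) := by
  obtain ⟨cc, hcc, hcoer⟩ := coercive_of_pos M d hpos
  obtain ⟨A, hA⟩ := radial_solution M d hd hsym hcc hcoer hsurj hlam N
  refine ⟨A, fun α hα => ?_⟩
  obtain ⟨g, hg, hg0, hode, ⟨C, hC⟩, hint⟩ := hA α hα
  have hga : ∀ a, ContDiff ℝ ∞ fun s => g s a := fun a => (contDiff_pi.1 hg) a
  have hgQ : ∀ a, ContDiff ℝ ∞ fun x => g (Qd p x) a := fun a => (hga a).comp (Qd_contDiff p)
  let u : Fin r → ℝ × ℝ → ℝ := fun a x => N a * Real.log (Qd p x) + g (Qd p x) a
  -- the exponentials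
  have hexp : ∀ a x, x ≠ p → Real.exp (u a x) = Qd p x ^ N a * Real.exp (g (Qd p x) a) := by
    intro a x hx
    simp only [u]
    rw [Real.exp_add, Real.exp_nat_mul, Real.exp_log (Qd_pos hx)]
  have hne : ∀ᵐ x : ℝ × ℝ ∂volume, x ≠ p := by
    simp [ae_iff]
  have hquad : ∀ a, (fun x => quad M (fun b => Real.exp (u b x)) a) =ᵐ[volume]
      fun x => quad M (fun b => Qd p x ^ N b * Real.exp (g (Qd p x) b)) a := by
    intro a
    filter_upwards [hne] with x hx
    simp only [hexp _ x hx]
  have hquadc : ∀ a, Continuous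
      fun x => quad M (fun b => Qd p x ^ N b * Real.exp (g (Qd p x) b)) a := by
    intro a
    have h1 : ∀ b, Continuous fun x => Qd p x ^ N b * Real.exp (g (Qd p x) b) := fun b =>
      ((Qd_continuous p).pow _).mul (Real.continuous_exp.comp (hgQ b).continuous)
    unfold quad pq
    refine continuous_finsetSum _ fun b _ => continuous_const.mul (((h1 b).mul ?_).sub (h1 b))
    exact continuous_finsetSum _ fun c _ => continuous_const.mul (h1 c)
  refine ⟨u, fun a => ?_, fun a => ?_, fun a => ?_, fun a φ hφ hc => ?_, fun a => ?_, fun a => ?_,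
    fun a => ?_⟩
  · -- smoothness
    rcases Nat.eq_zero_or_pos (N a) with h0 | h0
    · have h1 : u a = fun x => g (Qd p x) a := by
        ext x
        simp [u, h0]
      rw [h1]
      exact (hgQ a).contDiffOn
    · intro x hx
      have hxp : x ≠ p := hx a ⟨0, h0⟩
      have h1 : ContDiffAt ℝ ∞ (fun x => Real.log (Qd p x)) x :=
        (Real.contDiffAt_log.2 (Qd_pos hxp).ne').comp x (Qd_contDiff p).contDiffAt
      exact ((contDiffAt_const.mul h1).add (hgQ a).contDiffAt).contDiffWithinAt
  · -- local integrability of `u`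
    have h1 : LocallyIntegrable (fun x => (N a : ℝ) * Real.log (Qd p x)) volume :=
      (locallyIntegrable_log_Qd p).smul (N a : ℝ)
    exact h1.add (hgQ a).continuous.locallyIntegrable
  · exact (hquadc a).locallyIntegrable.congr (hquad a).symm
  · -- the distributional equation
    have hφ1 : ContDiff ℝ ∞ (fderiv ℝ φ) := hφ.fderiv_right (by exact_mod_cast le_top)
    have hφ2 : ContDiff ℝ ∞ (fderiv ℝ (fderiv ℝ φ)) :=
      hφ1.fderiv_right (by exact_mod_cast le_top)
    have hc2 : HasCompactSupport (fderiv ℝ (fderiv ℝ φ)) := (hc.fderiv ℝ).fderiv ℝ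
    have hlap : lap φ = fun x => fderiv ℝ (fderiv ℝ φ) x (1, 0) (1, 0)
        + fderiv ℝ (fderiv ℝ φ) x (0, 1) (0, 1) := by
      ext x
      simp [lap, iteratedFDeriv_two_apply]
    have hlapc : Continuous (lap φ) := by
      rw [hlap]
      exact ((hφ2.continuous.clm_apply continuous_const).clm_apply continuous_const).add
        ((hφ2.continuous.clm_apply continuous_const).clm_apply continuous_const)
    have hlaps : HasCompactSupport (lap φ) := by
      rw [hlap]
      refine hc2.mono fun x hx => ?_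
      simp only [Function.mem_support, ne_eq] at hx ⊢
      intro h
      exact hx (by rw [h]; simp)
    have hi1 : Integrable (fun x => Real.log (Qd p x) * lap φ x) volume := by
      simpa using (locallyIntegrable_log_Qd p).integrable_smul_right_of_hasCompactSupport
        hlapc hlaps
    have hi2 : Integrable (fun x => g (Qd p x) a * lap φ x) volume :=
      ((hgQ a).continuous.mul hlapc).integrable_of_hasCompactSupport hlaps.mul_left
    have e1 : ∫ x, u a x * lap φ x
        = N a * (∫ x, Real.log (Qd p x) * lap φ x) + ∫ x, g (Qd p x) a * lap φ x := by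
      rw [← integral_const_mul, ← integral_add (hi1.const_mul _) hi2]
      refine integral_congr_ae (Eventually.of_forall fun x => ?_)
      simp only [u]
      ring
    have hd1 : ∀ s, HasDerivAt (fun s => g s a) (deriv g s a) s := fun s =>
      (hasDerivAt_pi.1 (hg.differentiable (by simp) s).hasDerivAt) a
    have hg' : ContDiff ℝ ∞ (deriv g) := (contDiff_infty_iff_deriv.1 hg).2
    have hd2 : ∀ s, HasDerivAt (fun s => deriv g s a) (deriv (deriv g) s a) s := fun s =>
      (hasDerivAt_pi.1 (hg'.differentiable (by simp) s).hasDerivAt) a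
    have hg'' : Continuous fun s => deriv (deriv g) s a :=
      (continuous_apply a).comp (contDiff_infty_iff_deriv.1 hg').2.continuous
    have e2 := green_radial (Ψ := fun s => g s a) (Ψ1 := fun s => deriv g s a)
      (Ψ2 := fun s => deriv (deriv g) s a) p (fun s _ => hd1 s) (fun s _ => hd2 s)
      hg''.continuousOn hφ hc
    have hode' : ∀ s, 0 ≤ s → 4 * (deriv g s a + s * deriv (deriv g) s a)
        = lam * quad M (fun b => s ^ N b * Real.exp (g s b)) a := by
      intro s hs
      have h1 := (hasDerivAt_pi.1 (hode s hs)) a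
      have h2 : HasDerivAt (fun s => s * deriv g s a)
          (1 * deriv g s a + s * deriv (deriv g) s a) s := (hasDerivAt_id s).mul (hd2 s)
      have h3 := h1.unique h2
      simp only [Pi.smul_apply, smul_eq_mul] at h3
      linarith
    rw [e1, log_Qd_laplacian p hφ hc, e2]
    have e3 : ∫ x, (4 * (deriv g (Qd p x) a + Qd p x * deriv (deriv g) (Qd p x) a)) * φ x
        = ∫ x, lam * quad M (fun b => Real.exp (u b x)) a * φ x := by
      refine integral_congr_ae ?_
      filter_upwards [hquad a] with x hx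
      rw [hode' _ (Qd_nonneg p x), hx]
    rw [e3]
    simp
    ring
  · -- decay
    have h1 : ∀ᶠ x : ℝ × ℝ in cocompact (ℝ × ℝ), Real.exp (u a x) ≤ C / Qd p x := by
      have h2 : ∀ᶠ x : ℝ × ℝ in cocompact (ℝ × ℝ), x ≠ p := by
        have := (isCompact_singleton (x := p)).compl_mem_cocompact
        filter_upwards [this] with x hx using hx
      filter_upwards [h2] with x hx
      rw [hexp a x hx]
      exact hC _ (Qd_pos hx) a
    have h2 : Tendsto (fun x : ℝ × ℝ => C / Qd p x) (cocompact (ℝ × ℝ)) (𝓝 0) := by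
      refine Tendsto.div_atTop tendsto_const_nhds ?_
      have h3 : Tendsto (fun x : ℝ × ℝ => ‖x - p‖ ^ 2) (cocompact (ℝ × ℝ)) atTop := by
        have h4 : Tendsto (fun x : ℝ × ℝ => ‖x - p‖) (cocompact (ℝ × ℝ)) atTop := by
          have := tendsto_dist_right_cocompact_atTop p
          simpa [dist_eq_norm] using this
        exact (tendsto_pow_atTop (by norm_num)).comp h4
      exact tendsto_atTop_mono (norm_sq_le_Qd p) h3
    exact squeeze_zero' (Eventually.of_forall fun x => (Real.exp_pos _).le) h1 h2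
  · refine (integrable_radial (hint a) p).congr ?_
    filter_upwards [hne] with x hx
    rw [hexp a x hx]
  · have h1 : (fun x => u a x - N a * Real.log ((x.1 - p.1) ^ 2 + (x.2 - p.2) ^ 2))
        = fun x => g (Qd p x) a := by
      ext x
      simp only [u, Qd]
      ring
    rw [h1]
    have h2 := (hgQ a).continuous.tendsto p
    have h3 : g (Qd p p) a = α a := by
      have : Qd p p = 0 := by simp [Qd]
      rw [this, hg0]
    rwa [h3] at h2

end Pool.Agent.ChernSimons
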