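import Mathlib

set_option autoImplicit false

open MeasureTheory Set Filter Topology
open scoped BoundedContinuousFunction ContDiff

namespace Pool.Agent.ChernSimons

variable {E : Type*} [NormedAddCommGroup E] [NormedSpace ℝ E]

/-- Differentiation of the averages `s ↦ ∫₀¹ τ^k h(sτ) dτ`. -/
lemma hasDerivAt_avg {h : ℝ → E} (hh : ContDiff ℝ 1 h) (k : ℕ) (s : ℝ) :
    HasDerivAt (fun s => ∫ τ in (0:ℝ)..1, τ ^ k • h (s * τ))
      (∫ τ in (0:ℝ)..1, τ ^ (k + 1) • deriv h (s * τ)) s := by
  have hc : Continuous (deriv h) := hh.continuous_deriv le_rfl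
  have hd : ∀ x, HasDerivAt h (deriv h x) x := fun x =>
    (hh.differentiable one_ne_zero x).hasDerivAt
  obtain ⟨C, hC⟩ := (isCompact_Icc (a := -(|s| + 1)) (b := |s| + 1)).exists_bound_of_continuousOn
    hc.continuousOn
  have hcont : ∀ x : ℝ, Continuous fun t : ℝ => t ^ k • h (x * t) := fun x => by
    have := hh.continuous
    fun_prop
  have hcont' : ∀ x : ℝ, Continuous fun t : ℝ => t ^ (k + 1) • deriv h (x * t) := fun x => by
    fun_prop
  refine (intervalIntegral.hasDerivAt_integral_of_dominated_loc_of_deriv_le (μ := volume)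
    (a := 0) (b := 1) (F := fun x t => t ^ k • h (x * t))
    (F' := fun x t => t ^ (k + 1) • deriv h (x * t)) (x₀ := s) (s := Metric.ball s 1)
    (bound := fun _ => C) (Metric.ball_mem_nhds s one_pos) ?_ ?_ ?_ ?_ ?_ ?_).2
  · exact Eventually.of_forall fun x => (hcont x).aestronglyMeasurable
  · exact (hcont s).intervalIntegrable _ _
  · exact (hcont' s).aestronglyMeasurable
  · refine Eventually.of_forall fun t ht x hx => ?_
    rw [uIoc_of_le zero_le_one] at ht
    have hx' : |x| ≤ |s| + 1 := by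
      have h1 : |x - s| < 1 := by simpa [Real.dist_eq] using hx
      have h2 : |x| ≤ |x - s| + |s| := by
        have := abs_add_le (x - s) s
        simpa using this
      linarith
    have hxt : |x * t| ≤ |s| + 1 := by
      rw [abs_mul, abs_of_pos ht.1]
      calc |x| * t ≤ |x| * 1 := by gcongr; exact ht.2
        _ ≤ |s| + 1 := by simpa using hx'
    have h3 := hC (x * t) ⟨(abs_le.1 hxt).1, (abs_le.1 hxt).2⟩
    rw [norm_smul, norm_pow, Real.norm_of_nonneg ht.1.le]
    calc t ^ (k + 1) * ‖deriv h (x * t)‖ ≤ 1 * ‖deriv h (x * t)‖ := by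
          gcongr
          exact pow_le_one₀ ht.1.le ht.2
      _ ≤ C := by simpa using h3
  · exact continuous_const.intervalIntegrable _ _
  · refine Eventually.of_forall fun t _ x _ => ?_
    have h1 : HasDerivAt (fun x : ℝ => x * t) t x := by simpa using (hasDerivAt_id x).mul_const t
    have h2 := (hd (x * t)).scomp x h1
    have h3 := h2.const_smul (t ^ k)
    rw [smul_smul, ← pow_succ] at h3
    exact h3

lemma contDiff_avg (n : ℕ) : ∀ (h : ℝ → E), ContDiff ℝ n h → ∀ k : ℕ,
    ContDiff ℝ n (fun s => ∫ τ in (0:ℝ)..1, τ ^ k • h (s * τ)) := by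
  induction n with
  | zero =>
    intro h hh k
    have hc : Continuous h := hh.continuous
    refine contDiff_zero.2 ?_
    apply intervalIntegral.continuous_parametric_intervalIntegral_of_continuous'
    simp only [Function.uncurry_def]
    fun_prop
  | succ n ih =>
    intro h hh k
    have hh1 : ContDiff ℝ 1 h := hh.of_le (by
      have : (1 : ℕ∞ω) ≤ ((n + 1 : ℕ) : ℕ∞ω) := by exact_mod_cast Nat.succ_le_succ (Nat.zero_le n)
      exact this)
    have hcast : (((n + 1 : ℕ)) : ℕ∞ω) = (n : ℕ∞ω) + 1 := by push_cast; rfl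
    rw [hcast] at hh ⊢
    rw [contDiff_succ_iff_deriv] at hh ⊢
    refine ⟨fun s => (hasDerivAt_avg hh1 k s).differentiableAt, fun hn => ?_, ?_⟩
    · exact absurd hn (by simp)
    · have h2 : deriv (fun s => ∫ τ in (0:ℝ)..1, τ ^ k • h (s * τ))
          = fun s => ∫ τ in (0:ℝ)..1, τ ^ (k + 1) • deriv h (s * τ) :=
        funext fun s => (hasDerivAt_avg hh1 k s).deriv
      rw [h2]
      exact ih _ hh.2.2 (k + 1)

variable [CompleteSpace E]

/-- Global solutions of the singular initial value problem `4 (s g')' = F(s, g)`, `g 0 = α`, in the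
form `g'(s) = 1/4 ∫₀¹ F(sτ, g(sτ)) dτ`, for bounded Lipschitz `F`. -/
theorem exists_solution (F : ℝ → E → E) (hF : Continuous (Function.uncurry F)) (C : ℝ)
    (hC : ∀ s v, ‖F s v‖ ≤ C) (L : ℝ) (hL0 : 0 ≤ L)
    (hL : ∀ s v w, ‖F s v - F s w‖ ≤ L * ‖v - w‖) (α : E) :
    ∃ g : ℝ → E, Continuous g ∧ g 0 = α ∧
      ∀ s, HasDerivAt g ((1 / 4 : ℝ) • ∫ τ in (0:ℝ)..1, F (s * τ) (g (s * τ))) s := by
  set m : ℝ := L + 1 with hm
  have hm0 : 0 < m := by positivity
  have hC0 : 0 ≤ C := (norm_nonneg _).trans (hC 0 0)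
  let A : (ℝ →ᵇ E) → ℝ → E := fun z σ =>
    ∫ τ in (0:ℝ)..1, F (σ * τ) (Real.exp (m * |σ * τ|) • z (σ * τ))
  have hcontF : ∀ z : ℝ →ᵇ E, Continuous fun p : ℝ × ℝ =>
      F (p.1 * p.2) (Real.exp (m * |p.1 * p.2|) • z (p.1 * p.2)) := by
    intro z
    have hz := z.continuous
    have h1 : Continuous fun p : ℝ × ℝ =>
        ((p.1 * p.2, Real.exp (m * |p.1 * p.2|) • z (p.1 * p.2)) : ℝ × E) := by
      have : Continuous fun p : ℝ × ℝ => z (p.1 * p.2) := hz.comp (by fun_prop)
      fun_prop
    exact hF.comp h1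
  have hAcont : ∀ z, Continuous (A z) := fun z => by
    apply intervalIntegral.continuous_parametric_intervalIntegral_of_continuous'
    exact hcontF z
  have hAbound : ∀ z σ, ‖A z σ‖ ≤ C := fun z σ => by
    have := intervalIntegral.norm_integral_le_of_norm_le_const (a := 0) (b := 1) (C := C)
      (f := fun τ : ℝ => F (σ * τ) (Real.exp (m * |σ * τ|) • z (σ * τ))) (fun τ _ => hC _ _)
    rw [sub_zero, abs_one, mul_one] at this
    exact this
  have hAdiff : ∀ z w σ, ‖A z σ - A w σ‖ ≤ L * (Real.exp (m * |σ|) * dist z w) := fun z w σ => by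
    have hint : ∀ z : ℝ →ᵇ E, IntervalIntegrable
        (fun τ : ℝ => F (σ * τ) (Real.exp (m * |σ * τ|) • z (σ * τ))) volume 0 1 := fun z =>
      ((hcontF z).comp (by fun_prop : Continuous fun τ : ℝ => (σ, τ))).intervalIntegrable _ _
    have h1 : A z σ - A w σ = ∫ τ in (0:ℝ)..1,
        (F (σ * τ) (Real.exp (m * |σ * τ|) • z (σ * τ))
          - F (σ * τ) (Real.exp (m * |σ * τ|) • w (σ * τ))) :=
      (intervalIntegral.integral_sub (hint z) (hint w)).symm
    rw [h1]
    have := intervalIntegral.norm_integral_le_of_norm_le_const (a := 0) (b := 1)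
      (C := L * (Real.exp (m * |σ|) * dist z w))
      (f := fun τ : ℝ => F (σ * τ) (Real.exp (m * |σ * τ|) • z (σ * τ))
          - F (σ * τ) (Real.exp (m * |σ * τ|) • w (σ * τ))) (fun τ hτ => ?_)
    · rw [sub_zero, abs_one, mul_one] at this
      exact this
    · rw [uIoc_of_le zero_le_one] at hτ
      refine (hL _ _ _).trans ?_
      rw [← smul_sub, norm_smul, Real.norm_of_nonneg (Real.exp_pos _).le]
      have h5 : m * |σ * τ| ≤ m * |σ| := by
        rw [abs_mul, abs_of_pos hτ.1]
        exact mul_le_mul_of_nonneg_left (mul_le_of_le_one_right (abs_nonneg _) hτ.2) hm0.le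
      have h6 : ‖z (σ * τ) - w (σ * τ)‖ ≤ dist z w := by
        rw [← dist_eq_norm]
        exact BoundedContinuousFunction.dist_coe_le_dist _
      exact mul_le_mul_of_nonneg_left (mul_le_mul (Real.exp_le_exp.2 h5) h6 (norm_nonneg _)
        (Real.exp_pos _).le) hL0
  let G : (ℝ →ᵇ E) → ℝ → E := fun z s => α + (1 / 4 : ℝ) • ∫ σ in (0:ℝ)..s, A z σ
  have hGderiv : ∀ z s, HasDerivAt (G z) ((1 / 4 : ℝ) • A z s) s := fun z s => by
    have h1 : HasDerivAt (fun s => ∫ σ in (0:ℝ)..s, A z σ) (A z s) s :=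
      intervalIntegral.integral_hasDerivAt_right ((hAcont z).intervalIntegrable _ _)
        ((hAcont z).stronglyMeasurableAtFilter _ _) (hAcont z).continuousAt
    exact (h1.const_smul (1 / 4 : ℝ)).const_add α
  have hGcont : ∀ z, Continuous (G z) := fun z =>
    continuous_iff_continuousAt.2 fun s => (hGderiv z s).continuousAt
  have habs : ∀ s : ℝ, Real.exp (-(m * |s|)) * |s| ≤ 1 / m := by
    intro s
    have h1 : m * |s| + 1 ≤ Real.exp (m * |s|) := Real.add_one_le_exp _
    rw [Real.exp_neg, inv_mul_le_iff₀ (Real.exp_pos _), mul_one_div, le_div_iff₀ hm0]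
    nlinarith [abs_nonneg s]
  have hexp1 : ∀ s : ℝ, Real.exp (-(m * |s|)) ≤ 1 := fun s => by
    rw [Real.exp_le_one_iff]
    have := mul_nonneg hm0.le (abs_nonneg s)
    linarith
  have hTbound : ∀ z s, ‖Real.exp (-(m * |s|)) • G z s‖ ≤ ‖α‖ + C * (1 / m) := fun z s => by
    have h1 : ‖∫ σ in (0:ℝ)..s, A z σ‖ ≤ C * |s| := by
      have := intervalIntegral.norm_integral_le_of_norm_le_const (a := 0) (b := s) (C := C)
        (f := A z) (fun σ _ => hAbound z σ)
      simpa using this
    have h2 : ‖G z s‖ ≤ ‖α‖ + C * |s| := by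
      refine (norm_add_le _ _).trans ?_
      gcongr
      rw [norm_smul]
      have : ‖(1 / 4 : ℝ)‖ ≤ 1 := by norm_num
      calc ‖(1 / 4 : ℝ)‖ * ‖∫ σ in (0:ℝ)..s, A z σ‖ ≤ 1 * (C * |s|) := by gcongr
        _ = C * |s| := one_mul _
    rw [norm_smul, Real.norm_of_nonneg (Real.exp_pos _).le]
    calc Real.exp (-(m * |s|)) * ‖G z s‖ ≤ Real.exp (-(m * |s|)) * (‖α‖ + C * |s|) := by gcongr
      _ = Real.exp (-(m * |s|)) * ‖α‖ + C * (Real.exp (-(m * |s|)) * |s|) := by ring
      _ ≤ 1 * ‖α‖ + C * (1 / m) := by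
          gcongr
          · exact hexp1 s
          · exact habs s
      _ = _ := by ring
  let T : (ℝ →ᵇ E) → (ℝ →ᵇ E) := fun z =>
    BoundedContinuousFunction.ofNormedAddCommGroup (fun s => Real.exp (-(m * |s|)) • G z s)
      (by have := hGcont z; fun_prop) (‖α‖ + C * (1 / m)) (hTbound z)
  have hexpint : ∀ s : ℝ, ∫ τ in (0:ℝ)..1, |s| * Real.exp (m * (|s| * τ))
      = (Real.exp (m * |s|) - 1) / m := by
    intro s
    have h1 : ∀ τ ∈ uIcc (0:ℝ) 1, HasDerivAt (fun τ : ℝ => Real.exp (m * (|s| * τ)) / m)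
        (|s| * Real.exp (m * (|s| * τ))) τ := by
      intro τ _
      have h2 : HasDerivAt (fun τ : ℝ => m * (|s| * τ)) (m * |s|) τ := by
        simpa using ((hasDerivAt_id τ).const_mul |s|).const_mul m
      have h3 := h2.exp.div_const m
      have h4 : Real.exp (m * (|s| * τ)) * (m * |s|) / m = |s| * Real.exp (m * (|s| * τ)) := by
        rw [div_eq_iff hm0.ne']
        ring
      rwa [h4] at h3
    rw [intervalIntegral.integral_eq_sub_of_hasDerivAt h1
      ((by fun_prop : Continuous _).intervalIntegrable _ _)]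
    simp [sub_div]
  have hTcontr : ∀ z w, dist (T z) (T w) ≤ (1 / 4 : ℝ) * dist z w := fun z w => by
    rw [BoundedContinuousFunction.dist_le (by positivity)]
    intro s
    have hTz : ∀ z, T z s = Real.exp (-(m * |s|)) • G z s := fun z => rfl
    rw [hTz, hTz, dist_eq_norm, ← smul_sub, norm_smul, Real.norm_of_nonneg (Real.exp_pos _).le]
    have hint : ∀ z, IntervalIntegrable (A z) volume 0 s := fun z =>
      (hAcont z).intervalIntegrable _ _
    have h1 : G z s - G w s = (1 / 4 : ℝ) • ∫ σ in (0:ℝ)..s, (A z σ - A w σ) := by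
      simp only [G]
      rw [intervalIntegral.integral_sub (hint z) (hint w), smul_sub]
      abel
    have h2 : ∫ σ in (0:ℝ)..s, (A z σ - A w σ)
        = s • ∫ τ in (0:ℝ)..1, (A z (s * τ) - A w (s * τ)) := by
      have := intervalIntegral.smul_integral_comp_mul_left (a := 0) (b := 1)
        (fun σ => A z σ - A w σ) s
      rw [this]
      simp
    have h3 : ‖∫ τ in (0:ℝ)..1, (A z (s * τ) - A w (s * τ))‖
        ≤ ∫ τ in (0:ℝ)..1, L * (Real.exp (m * (|s| * τ)) * dist z w) := by
      refine intervalIntegral.norm_integral_le_of_norm_le zero_le_one ?_ ?_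
      · refine Eventually.of_forall fun τ hτ => ?_
        have := hAdiff z w (s * τ)
        rwa [abs_mul, abs_of_pos hτ.1] at this
      · exact (by fun_prop : Continuous _).intervalIntegrable _ _
    have h4 : |s| * ∫ τ in (0:ℝ)..1, L * (Real.exp (m * (|s| * τ)) * dist z w)
        = L * dist z w * ((Real.exp (m * |s|) - 1) / m) := by
      rw [← hexpint s, ← intervalIntegral.integral_const_mul, ← intervalIntegral.integral_const_mul]
      congr 1
      ext τ
      ring
    have h5 : ‖G z s - G w s‖ ≤ (1 / 4) * (dist z w * Real.exp (m * |s|)) := by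
      rw [h1, h2, norm_smul, norm_smul, Real.norm_of_nonneg (by norm_num : (0:ℝ) ≤ 1 / 4),
        Real.norm_eq_abs]
      have h6 : |s| * ‖∫ τ in (0:ℝ)..1, (A z (s * τ) - A w (s * τ))‖
          ≤ L * dist z w * ((Real.exp (m * |s|) - 1) / m) := by
        rw [← h4]
        gcongr
      have h7 : L * dist z w * ((Real.exp (m * |s|) - 1) / m) ≤ dist z w * Real.exp (m * |s|) := by
        have h8 : L / m ≤ 1 := by
          rw [div_le_one hm0]; linarith
        have h9 : 0 ≤ Real.exp (m * |s|) - 1 := by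
          have := Real.one_le_exp (mul_nonneg hm0.le (abs_nonneg s))
          linarith
        calc L * dist z w * ((Real.exp (m * |s|) - 1) / m)
            = (L / m) * (dist z w * (Real.exp (m * |s|) - 1)) := by ring
          _ ≤ 1 * (dist z w * (Real.exp (m * |s|) - 1)) := by gcongr
          _ ≤ dist z w * Real.exp (m * |s|) := by
              have := dist_nonneg (x := z) (y := w)
              nlinarith
      linarith
    calc Real.exp (-(m * |s|)) * ‖G z s - G w s‖
        ≤ Real.exp (-(m * |s|)) * ((1 / 4) * (dist z w * Real.exp (m * |s|))) := by gcongr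
      _ = (1 / 4) * dist z w * (Real.exp (-(m * |s|)) * Real.exp (m * |s|)) := by ring
      _ = (1 / 4) * dist z w := by rw [← Real.exp_add]; simp
  have hcontr : ContractingWith (1 / 4 : NNReal) T := by
    refine ⟨by norm_num [← NNReal.coe_lt_coe], LipschitzWith.of_dist_le_mul fun z w => ?_⟩
    have := hTcontr z w
    simpa using this
  obtain ⟨z, hz⟩ : ∃ z, T z = z := ⟨_, hcontr.fixedPoint_isFixedPt⟩
  have hg : (fun s => Real.exp (m * |s|) • z s) = G z := by
    ext s
    have h1 : z s = Real.exp (-(m * |s|)) • G z s := by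
      conv_lhs => rw [← hz]
      rfl
    rw [h1, smul_smul, ← Real.exp_add]
    simp
  refine ⟨G z, hGcont z, by simp [G], fun s => ?_⟩
  have h1 := hGderiv z s
  have h2 : A z s = ∫ τ in (0:ℝ)..1, F (s * τ) (G z (s * τ)) := by
    simp only [A]
    congr 1
    ext τ
    rw [← congrFun hg (s * τ)]
  rwa [h2] at h1

omit [CompleteSpace E] in
/-- The solution is smooth if `F` is. -/
theorem contDiff_solution (F : ℝ → E → E) (hF : ContDiff ℝ ∞ (Function.uncurry F)) (g : ℝ → E)
    (hg : Continuous g)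
    (hd : ∀ s, HasDerivAt g ((1 / 4 : ℝ) • ∫ τ in (0:ℝ)..1, F (s * τ) (g (s * τ))) s) :
    ContDiff ℝ ∞ g := by
  rw [contDiff_infty]
  intro n
  induction n with
  | zero => exact contDiff_zero.2 hg
  | succ n ih =>
    have hcast : (((n + 1 : ℕ)) : ℕ∞ω) = (n : ℕ∞ω) + 1 := by push_cast; rfl
    rw [hcast, contDiff_succ_iff_deriv]
    refine ⟨fun s => (hd s).differentiableAt, fun hn => absurd hn (by simp), ?_⟩
    have h1 : deriv g = fun s => (1 / 4 : ℝ) • ∫ τ in (0:ℝ)..1, F (s * τ) (g (s * τ)) :=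
      funext fun s => (hd s).deriv
    rw [h1]
    have h2 : ContDiff ℝ n (fun s => F s (g s)) := by
      have h3 : ContDiff ℝ n (fun s : ℝ => ((s, g s) : ℝ × E)) := contDiff_id.prodMk ih
      exact (hF.of_le (by exact_mod_cast le_top)).comp h3
    have h4 := contDiff_avg n (fun s => F s (g s)) h2 0
    simp only [pow_zero, one_smul] at h4
    exact h4.const_smul _

end Pool.Agent.ChernSimons
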