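import Mathlib

set_option autoImplicit false

open MeasureTheory Set Filter Topology
open scoped ContDiff

namespace Pool.Agent.ChernSimons

/-- squared Euclidean distance to `p` -/
noncomputable def Qd (p x : ℝ × ℝ) : ℝ := (x.1 - p.1) ^ 2 + (x.2 - p.2) ^ 2

lemma Qd_nonneg (p x : ℝ × ℝ) : 0 ≤ Qd p x := by unfold Qd; positivity

lemma Qd_continuous (p : ℝ × ℝ) : Continuous (Qd p) := by unfold Qd; fun_prop

lemma Qd_contDiff (p : ℝ × ℝ) : ContDiff ℝ ∞ (Qd p) := by unfold Qd; fun_prop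

lemma norm_sq_le_Qd (p x : ℝ × ℝ) : ‖x - p‖ ^ 2 ≤ Qd p x := by
  unfold Qd
  rw [Prod.norm_def]
  rcases le_total ‖(x - p).1‖ ‖(x - p).2‖ with h | h
  · rw [max_eq_right h, Real.norm_eq_abs, sq_abs]
    simp only [Prod.snd_sub]
    nlinarith [sq_nonneg (x.1 - p.1)]
  · rw [max_eq_left h, Real.norm_eq_abs, sq_abs]
    simp only [Prod.fst_sub]
    nlinarith [sq_nonneg (x.2 - p.2)]

lemma Qd_le_norm_sq (p x : ℝ × ℝ) : Qd p x ≤ 2 * ‖x - p‖ ^ 2 := by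
  unfold Qd
  have h1 : |x.1 - p.1| ≤ ‖x - p‖ := by
    have := norm_fst_le (x - p)
    simpa using this
  have h2 : |x.2 - p.2| ≤ ‖x - p‖ := by
    have := norm_snd_le (x - p)
    simpa using this
  have h3 : (x.1 - p.1) ^ 2 ≤ ‖x - p‖ ^ 2 := by
    rw [← sq_abs]
    gcongr
  have h4 : (x.2 - p.2) ^ 2 ≤ ‖x - p‖ ^ 2 := by
    rw [← sq_abs (x.2 - p.2)]
    gcongr
  linarith

lemma Qd_pos {p x : ℝ × ℝ} (h : x ≠ p) : 0 < Qd p x := by
  refine lt_of_lt_of_le ?_ (norm_sq_le_Qd p x)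
  have := norm_pos_iff.2 (sub_ne_zero.2 h)
  positivity

/-- The Laplacian of a test function, as in the problem's frozen statements. -/
noncomputable def lap (φ : ℝ × ℝ → ℝ) (x : ℝ × ℝ) : ℝ :=
  iteratedFDeriv ℝ 2 φ x (![((1 : ℝ), (0 : ℝ)), ((1 : ℝ), (0 : ℝ))] : Fin 2 → ℝ × ℝ)
    + iteratedFDeriv ℝ 2 φ x (![((0 : ℝ), (1 : ℝ)), ((0 : ℝ), (1 : ℝ))] : Fin 2 → ℝ × ℝ)

lemma hasLineDerivAt_fst {Ψ : ℝ → ℝ} {Ψ' : ℝ} (p x : ℝ × ℝ) (h : HasDerivAt Ψ Ψ' (Qd p x)) :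
    HasLineDerivAt ℝ (fun x => Ψ (Qd p x)) (2 * (x.1 - p.1) * Ψ') x (1, 0) := by
  unfold HasLineDerivAt
  have h1 : HasDerivAt (fun t : ℝ => Qd p (x + t • ((1 : ℝ), (0 : ℝ)))) (2 * (x.1 - p.1)) 0 := by
    have h2 : (fun t : ℝ => Qd p (x + t • ((1 : ℝ), (0 : ℝ))))
        = fun t : ℝ => (x.1 + t - p.1) ^ 2 + (x.2 - p.2) ^ 2 := by
      ext t
      simp [Qd]
    rw [h2]
    have h3 : HasDerivAt (fun t : ℝ => x.1 + t - p.1) 1 0 :=
      ((hasDerivAt_id (0:ℝ)).const_add x.1).sub_const p.1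
    have h4 := (h3.pow 2).add_const ((x.2 - p.2) ^ 2)
    refine h4.congr_deriv ?_
    simp
  have h5 : HasDerivAt Ψ Ψ' (Qd p (x + (0:ℝ) • ((1 : ℝ), (0 : ℝ)))) := by simpa using h
  have h6 := h5.comp 0 h1
  rw [mul_comm] at h6
  exact h6

lemma hasLineDerivAt_snd {Ψ : ℝ → ℝ} {Ψ' : ℝ} (p x : ℝ × ℝ) (h : HasDerivAt Ψ Ψ' (Qd p x)) :
    HasLineDerivAt ℝ (fun x => Ψ (Qd p x)) (2 * (x.2 - p.2) * Ψ') x (0, 1) := by
  unfold HasLineDerivAt
  have h1 : HasDerivAt (fun t : ℝ => Qd p (x + t • ((0 : ℝ), (1 : ℝ)))) (2 * (x.2 - p.2)) 0 := by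
    have h2 : (fun t : ℝ => Qd p (x + t • ((0 : ℝ), (1 : ℝ))))
        = fun t : ℝ => (x.1 - p.1) ^ 2 + (x.2 + t - p.2) ^ 2 := by
      ext t
      simp [Qd]
    rw [h2]
    have h3 : HasDerivAt (fun t : ℝ => x.2 + t - p.2) 1 0 :=
      ((hasDerivAt_id (0:ℝ)).const_add x.2).sub_const p.2
    have h4 := (h3.pow 2).const_add ((x.1 - p.1) ^ 2)
    refine h4.congr_deriv ?_
    simp
  have h5 : HasDerivAt Ψ Ψ' (Qd p (x + (0:ℝ) • ((0 : ℝ), (1 : ℝ)))) := by simpa using h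
  have h6 := h5.comp 0 h1
  rw [mul_comm] at h6
  exact h6

/-- Double integration by parts in one direction. -/
lemma ibp_twice {W W1 W2 φ : ℝ × ℝ → ℝ} (v : ℝ × ℝ) (hW : Continuous W) (hW1 : Continuous W1)
    (hW2 : Continuous W2) (h1 : ∀ x, HasLineDerivAt ℝ W (W1 x) x v)
    (h2 : ∀ x, HasLineDerivAt ℝ W1 (W2 x) x v) (hφ : ContDiff ℝ ∞ φ) (hc : HasCompactSupport φ) :
    ∫ x, W x * iteratedFDeriv ℝ 2 φ x (![v, v] : Fin 2 → ℝ × ℝ) = ∫ x, W2 x * φ x := by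
  have hφ1 : ContDiff ℝ ∞ (fderiv ℝ φ) := hφ.fderiv_right (by exact_mod_cast le_top)
  have hφ2 : ContDiff ℝ ∞ (fderiv ℝ (fderiv ℝ φ)) := hφ1.fderiv_right (by exact_mod_cast le_top)
  have hc1 : HasCompactSupport (fderiv ℝ φ) := hc.fderiv ℝ
  have hc2 : HasCompactSupport (fderiv ℝ (fderiv ℝ φ)) := hc1.fderiv ℝ
  let D1 : ℝ × ℝ → ℝ := fun x => fderiv ℝ φ x v
  let D2 : ℝ × ℝ → ℝ := fun x => fderiv ℝ (fderiv ℝ φ) x v v
  have hD1c : Continuous D1 := (hφ1.continuous.clm_apply continuous_const)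
  have hD2c : Continuous D2 := ((hφ2.continuous.clm_apply continuous_const).clm_apply
    continuous_const)
  have hD1s : HasCompactSupport D1 := by
    refine hc1.mono fun x hx => ?_
    simp only [D1, Function.mem_support, ne_eq] at hx ⊢
    intro h
    exact hx (by rw [h]; rfl)
  have hD2s : HasCompactSupport D2 := by
    refine hc2.mono fun x hx => ?_
    simp only [D2, Function.mem_support, ne_eq] at hx ⊢
    intro h
    exact hx (by rw [h]; rfl)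
  have hd0 : ∀ x, HasLineDerivAt ℝ φ (D1 x) x v := fun x =>
    ((hφ.differentiable (by simp)) x).hasFDerivAt.hasLineDerivAt v
  have hd1 : ∀ x, HasLineDerivAt ℝ D1 (D2 x) x v := fun x => by
    have h3 := ((hφ1.differentiable (by simp)) x).hasFDerivAt.hasLineDerivAt v
    have h4 := (ContinuousLinearMap.apply ℝ ℝ v).hasFDerivAt.comp_hasDerivAt (0:ℝ) h3
    exact h4
  have hint : ∀ {f g : ℝ × ℝ → ℝ}, Continuous f → Continuous g → HasCompactSupport g →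
      Integrable (fun x => f x * g x) := fun hf hg hgs =>
    (hf.mul hg).integrable_of_hasCompactSupport hgs.mul_left
  have e1 : ∫ x, W x * D2 x = - ∫ x, W1 x * D1 x :=
    integral_bilinear_hasLineDerivAt_right_eq_neg_left_of_integrable
      (B := ContinuousLinearMap.mul ℝ ℝ) (hint hW1 hD1c hD1s) (hint hW hD2c hD2s)
      (hint hW hD1c hD1s) (fun x _ => h1 x) (fun x _ => hd1 x)
  have e2 : ∫ x, W1 x * D1 x = - ∫ x, W2 x * φ x :=
    integral_bilinear_hasLineDerivAt_right_eq_neg_left_of_integrable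
      (B := ContinuousLinearMap.mul ℝ ℝ) (hint hW2 hφ.continuous hc) (hint hW1 hD1c hD1s)
      (hint hW1 hφ.continuous hc) (fun x _ => h2 x) (fun x _ => hd0 x)
  have e3 : ∀ x, iteratedFDeriv ℝ 2 φ x (![v, v] : Fin 2 → ℝ × ℝ) = D2 x := fun x => by
    rw [iteratedFDeriv_two_apply]
    simp [D2]
  simp only [e3]
  rw [e1, e2, neg_neg]

/-- Green's identity for a smooth radial function. -/
theorem green_radial {Ψ Ψ1 Ψ2 : ℝ → ℝ} (p : ℝ × ℝ) (h0 : ∀ s, 0 ≤ s → HasDerivAt Ψ (Ψ1 s) s)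
    (h1 : ∀ s, 0 ≤ s → HasDerivAt Ψ1 (Ψ2 s) s) (h2 : ContinuousOn Ψ2 (Ici 0))
    {φ : ℝ × ℝ → ℝ} (hφ : ContDiff ℝ ∞ φ) (hc : HasCompactSupport φ) :
    ∫ x, Ψ (Qd p x) * lap φ x = ∫ x, (4 * (Ψ1 (Qd p x) + Qd p x * Ψ2 (Qd p x))) * φ x := by
  have hQ := Qd_continuous p
  have hΨc : Continuous fun x => Ψ (Qd p x) :=
    continuous_iff_continuousAt.2 fun x =>
      (h0 _ (Qd_nonneg p x)).continuousAt.comp hQ.continuousAt
  have hΨ1c : Continuous fun x => Ψ1 (Qd p x) :=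
    continuous_iff_continuousAt.2 fun x =>
      (h1 _ (Qd_nonneg p x)).continuousAt.comp hQ.continuousAt
  have hΨ2c : Continuous fun x => Ψ2 (Qd p x) := h2.comp_continuous hQ (Qd_nonneg p)
  have hA1 : Continuous fun x : ℝ × ℝ => 2 * (x.1 - p.1) * Ψ1 (Qd p x) :=
    (by fun_prop : Continuous fun x : ℝ × ℝ => 2 * (x.1 - p.1)).mul hΨ1c
  have hA2 : Continuous fun x : ℝ × ℝ => 2 * (x.2 - p.2) * Ψ1 (Qd p x) :=
    (by fun_prop : Continuous fun x : ℝ × ℝ => 2 * (x.2 - p.2)).mul hΨ1c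
  have hB1 : Continuous fun x : ℝ × ℝ => 2 * Ψ1 (Qd p x) + 4 * (x.1 - p.1) ^ 2 * Ψ2 (Qd p x) :=
    (continuous_const.mul hΨ1c).add
      ((by fun_prop : Continuous fun x : ℝ × ℝ => 4 * (x.1 - p.1) ^ 2).mul hΨ2c)
  have hB2 : Continuous fun x : ℝ × ℝ => 2 * Ψ1 (Qd p x) + 4 * (x.2 - p.2) ^ 2 * Ψ2 (Qd p x) :=
    (continuous_const.mul hΨ1c).add
      ((by fun_prop : Continuous fun x : ℝ × ℝ => 4 * (x.2 - p.2) ^ 2).mul hΨ2c)
  have e1 := ibp_twice (W := fun x => Ψ (Qd p x)) (W1 := fun x => 2 * (x.1 - p.1) * Ψ1 (Qd p x))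
    (W2 := fun x => 2 * Ψ1 (Qd p x) + 4 * (x.1 - p.1) ^ 2 * Ψ2 (Qd p x)) (1, 0) hΨc hA1
    hB1 (fun x => hasLineDerivAt_fst p x (h0 _ (Qd_nonneg p x))) (fun x => by
      have h3 := hasLineDerivAt_fst p x (h1 _ (Qd_nonneg p x))
      unfold HasLineDerivAt at h3 ⊢
      have h4 : HasDerivAt (fun t : ℝ => 2 * ((x + t • ((1 : ℝ), (0 : ℝ))).1 - p.1)) 2 0 := by
        have h5 : (fun t : ℝ => 2 * ((x + t • ((1 : ℝ), (0 : ℝ))).1 - p.1))
            = fun t : ℝ => 2 * (x.1 + t - p.1) := by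
          ext t
          simp
        rw [h5]
        have h6 := (((hasDerivAt_id (0:ℝ)).const_add x.1).sub_const p.1).const_mul 2
        refine h6.congr_deriv ?_
        norm_num
      refine (h4.mul h3).congr_deriv ?_
      simp
      ring) hφ hc
  have e2 := ibp_twice (W := fun x => Ψ (Qd p x)) (W1 := fun x => 2 * (x.2 - p.2) * Ψ1 (Qd p x))
    (W2 := fun x => 2 * Ψ1 (Qd p x) + 4 * (x.2 - p.2) ^ 2 * Ψ2 (Qd p x)) (0, 1) hΨc hA2
    hB2 (fun x => hasLineDerivAt_snd p x (h0 _ (Qd_nonneg p x))) (fun x => by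
      have h3 := hasLineDerivAt_snd p x (h1 _ (Qd_nonneg p x))
      unfold HasLineDerivAt at h3 ⊢
      have h4 : HasDerivAt (fun t : ℝ => 2 * ((x + t • ((0 : ℝ), (1 : ℝ))).2 - p.2)) 2 0 := by
        have h5 : (fun t : ℝ => 2 * ((x + t • ((0 : ℝ), (1 : ℝ))).2 - p.2))
            = fun t : ℝ => 2 * (x.2 + t - p.2) := by
          ext t
          simp
        rw [h5]
        have h6 := (((hasDerivAt_id (0:ℝ)).const_add x.2).sub_const p.2).const_mul 2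
        refine h6.congr_deriv ?_
        norm_num
      refine (h4.mul h3).congr_deriv ?_
      simp
      ring) hφ hc
  have hφ1 : ContDiff ℝ ∞ (fderiv ℝ φ) := hφ.fderiv_right (by exact_mod_cast le_top)
  have hφ2 : ContDiff ℝ ∞ (fderiv ℝ (fderiv ℝ φ)) := hφ1.fderiv_right (by exact_mod_cast le_top)
  have hc2 : HasCompactSupport (fderiv ℝ (fderiv ℝ φ)) := (hc.fderiv ℝ).fderiv ℝ
  have hint : ∀ v : ℝ × ℝ, Integrable fun x => Ψ (Qd p x) *
      iteratedFDeriv ℝ 2 φ x (![v, v] : Fin 2 → ℝ × ℝ) := by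
    intro v
    simp only [iteratedFDeriv_two_apply, Matrix.cons_val_zero, Matrix.cons_val_one]
    refine (hΨc.mul ((hφ2.continuous.clm_apply continuous_const).clm_apply
      continuous_const)).integrable_of_hasCompactSupport (HasCompactSupport.mul_left ?_)
    refine hc2.mono fun x hx => ?_
    simp only [Function.mem_support, ne_eq] at hx ⊢
    intro h
    exact hx (by rw [h]; rfl)
  have hint2 : ∀ {f : ℝ × ℝ → ℝ}, Continuous f → Integrable (fun x => f x * φ x) := fun hf =>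
    (hf.mul hφ.continuous).integrable_of_hasCompactSupport hc.mul_left
  have e3 : ∫ x, Ψ (Qd p x) * lap φ x
      = (∫ x, Ψ (Qd p x) * iteratedFDeriv ℝ 2 φ x (![(1, 0), (1, 0)] : Fin 2 → ℝ × ℝ))
        + ∫ x, Ψ (Qd p x) * iteratedFDeriv ℝ 2 φ x (![(0, 1), (0, 1)] : Fin 2 → ℝ × ℝ) := by
    rw [← integral_add (hint _) (hint _)]
    refine integral_congr_ae (Eventually.of_forall fun x => ?_)
    simp only [lap]
    ring
  rw [e3, e1, e2, ← integral_add (hint2 hB1) (hint2 hB2)]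
  refine integral_congr_ae (Eventually.of_forall fun x => ?_)
  simp only [Qd]
  ring

end Pool.Agent.ChernSimons
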