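import Pool.Agent.Lib.MP_ad5d82_an.Energy

set_option autoImplicit false

open MeasureTheory Set Filter Topology
open scoped ContDiff

namespace Pool.Agent.ChernSimons

variable {ι : Type*} [Fintype ι]

/-- Continuity induction for two continuous functions. -/
lemma continuity_induction {φ ψ : ℝ → ℝ} {s₀ : ℝ} {cφ cψ : ℝ} (hφ : ContinuousOn φ (Ici s₀))
    (hψ : ContinuousOn ψ (Ici s₀)) (h0 : φ s₀ < cφ ∧ ψ s₀ < cψ)
    (hstep : ∀ s, s₀ ≤ s → (∀ σ ∈ Icc s₀ s, φ σ ≤ cφ ∧ ψ σ ≤ cψ) → φ s < cφ ∧ ψ s < cψ) :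
    ∀ s, s₀ ≤ s → φ s < cφ ∧ ψ s < cψ := by
  by_contra hcon
  push Not at hcon
  obtain ⟨s₁, hs₁, hbad⟩ := hcon
  let T : Set ℝ := {s | s ∈ Icc s₀ s₁ ∧ (cφ ≤ φ s ∨ cψ ≤ ψ s)}
  have hT : T.Nonempty := by
    refine ⟨s₁, ⟨hs₁, le_rfl⟩, ?_⟩
    by_cases h : φ s₁ < cφ
    · exact Or.inr (hbad h)
    · exact Or.inl (not_lt.1 h)
  have hsub : Icc s₀ s₁ ⊆ Ici s₀ := fun x hx => hx.1
  have hclosed : IsClosed T := by
    have h1 : IsClosed {s | s ∈ Icc s₀ s₁ ∧ cφ ≤ φ s} := by
      exact (hφ.mono hsub).preimage_isClosed_of_isClosed isClosed_Icc (isClosed_Ici (a := cφ))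
    have h2 : IsClosed {s | s ∈ Icc s₀ s₁ ∧ cψ ≤ ψ s} := by
      exact (hψ.mono hsub).preimage_isClosed_of_isClosed isClosed_Icc (isClosed_Ici (a := cψ))
    have h3 : T = {s | s ∈ Icc s₀ s₁ ∧ cφ ≤ φ s} ∪ {s | s ∈ Icc s₀ s₁ ∧ cψ ≤ ψ s} := by
      ext s
      simp only [T, mem_ofPred_eq, mem_union]
      tauto
    rw [h3]
    exact h1.union h2
  have hbdd : BddBelow T := ⟨s₀, fun s hs => hs.1.1⟩
  obtain hmem := hclosed.csInf_mem hT hbdd
  set s' := sInf T with hs'
  have hlt : ∀ σ, s₀ ≤ σ → σ < s' → φ σ < cφ ∧ ψ σ < cψ := by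
    intro σ h1 h2
    by_contra h3
    have h4 : σ ∈ T := by
      refine ⟨⟨h1, h2.le.trans hmem.1.2⟩, ?_⟩
      by_contra h5
      push Not at h5
      exact h3 h5
    exact absurd (csInf_le hbdd h4) (not_le.2 h2)
  have hne : s₀ < s' := by
    rcases hmem.1.1.eq_or_lt with h | h
    · exfalso
      have h1 := hmem.2
      rw [← h] at h1
      rcases h1 with h1 | h1
      · exact absurd h0.1 (not_lt.2 h1)
      · exact absurd h0.2 (not_lt.2 h1)
    · exact h
  have hle : φ s' ≤ cφ ∧ ψ s' ≤ cψ := by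
    have hcl : s' ∈ closure (Ico s₀ s') := by
      rw [closure_Ico hne.ne]
      exact ⟨hne.le, le_rfl⟩
    have hsub2 : Ico s₀ s' ⊆ Ici s₀ := fun x hx => hx.1
    constructor
    · have h1 : ContinuousWithinAt φ (Ico s₀ s') s' :=
        (hφ s' hne.le).mono hsub2
      exact h1.closure_le hcl continuousWithinAt_const fun y hy => (hlt y hy.1 hy.2).1.le
    · have h1 : ContinuousWithinAt ψ (Ico s₀ s') s' :=
        (hψ s' hne.le).mono hsub2
      exact h1.closure_le hcl continuousWithinAt_const fun y hy => (hlt y hy.1 hy.2).2.le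
  have := hstep s' hne.le fun σ hσ => by
    rcases hσ.2.eq_or_lt with h | h
    · rw [h]; exact hle
    · exact ⟨(hlt σ hσ.1 h).1.le, (hlt σ hσ.1 h).2.le⟩
  rcases hmem.2 with h | h
  · exact absurd this.1 (not_lt.2 h)
  · exact absurd this.2 (not_lt.2 h)

/-- Radial solutions of the system, in the variable `s = |x|²`. -/
theorem radial_solution (M : Matrix ι ι ℝ) (d : ι → ℝ) (hd : ∀ a, 0 < d a)
    (hsym : ∀ a b, d a * M a b = d b * M b a) {cc : ℝ} (hcc : 0 < cc)
    (hcoer : ∀ x, cc * ∑ a, x a ^ 2 ≤ bil M d x x)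
    (hsurj : ∀ y : ι → ℝ, ∃ x : ι → ℝ, ∀ a, ∑ b, M a b * x b = y a)
    {lam : ℝ} (hlam : 0 < lam) (N : ι → ℕ) :
    ∃ A : ℝ, ∀ α : ι → ℝ, (∀ a, α a ≤ A) → ∃ g : ℝ → ι → ℝ, ContDiff ℝ ∞ g ∧ g 0 = α ∧
      (∀ s, 0 ≤ s → HasDerivAt (fun s => s • deriv g s)
        ((lam / 4) • quad M (fun b => s ^ N b * Real.exp (g s b))) s) ∧
      (∃ C : ℝ, ∀ s, 0 < s → ∀ a, s ^ N a * Real.exp (g s a) ≤ C / s) ∧
      ∀ a, IntegrableOn (fun s => s ^ N a * Real.exp (g s a)) (Ioi 0) := by
  have hpos : ∀ x, 0 ≤ bil M d x x := fun x => le_trans (mul_nonneg hcc.le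
    (Finset.sum_nonneg fun a _ => sq_nonneg _)) (hcoer x)
  -- constants
  set m := msum M with hm
  have hm0 : 0 ≤ m := msum_nonneg M
  set B : ℝ := 1 / (2 * (m + 1)) with hBdef
  have hB : 0 < B := by positivity
  have hmB : m * B ≤ 1 / 2 := by
    rw [hBdef, mul_one_div, div_le_div_iff₀ (by positivity) (by norm_num)]
    linarith
  obtain ⟨CF, hCF0, hCF⟩ := tF_bound M hlam hB N
  obtain ⟨L, hL0, hL⟩ := tF_lipschitz M hlam hB N
  obtain ⟨c, hc⟩ := hsurj (fun a => 2 * (N a : ℝ) + 2)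
  set D : ℝ := ∑ a, d a with hD
  have hD0 : 0 ≤ D := Finset.sum_nonneg fun a _ => (hd a).le
  set cb : ℝ := ∑ a, |c a| with hcb
  have hcb0 : 0 ≤ cb := Finset.sum_nonneg fun _ _ => abs_nonneg _
  set κ : ℝ := ∑ a, 2 / (lam * d a) with hκ
  have hκ0 : 0 ≤ κ := Finset.sum_nonneg fun a _ => by have := hd a; positivity
  set H0 : ℝ := 1 / 2 * (D * (cb + 1) * (m * (cb + 1))) + 1 with hH0
  have hH00 : 0 < H0 := by positivity
  set H1 : ℝ := H0 + 1 with hH1
  have hH10 : 0 < H1 := by positivity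
  set q : ℝ := lam / 2 * (D * m * κ ^ 2) with hq
  have hq0 : 0 ≤ q := by positivity
  set s₀ : ℝ := 1 + 2 * (q * H1 ^ 2) + 2 * (κ * H1 / B) with hs₀
  have hs₀1 : 1 ≤ s₀ := by
    have : 0 ≤ 2 * (q * H1 ^ 2) + 2 * (κ * H1 / B) := by (clear * - hD0 hlam hm0 hκ0; positivity)
    linarith
  have hs₀0 : 0 < s₀ := by linarith
  have hqs : q * H1 ^ 2 / s₀ ≤ 1 / 2 := by
    rw [div_le_iff₀ hs₀0]
    have : 0 ≤ 2 * (κ * H1 / B) := by (clear * - hD0 hm0 hκ0; positivity)
    linarith only [this]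
  have hκs : κ * H1 / s₀ ≤ B / 2 := by
    rw [div_le_iff₀ hs₀0]
    have h1 : 0 ≤ 1 + 2 * (q * H1 ^ 2) := by (clear * - hD0 hlam hm0; positivity)
    have h2 : B / 2 * (2 * (κ * H1 / B)) = κ * H1 := by field_simp
    nlinarith only [h1, h2, hB]
  set n : ℝ := (Fintype.card ι : ℝ) with hn
  have hn0 : 0 ≤ n := Nat.cast_nonneg _
  set X : ℝ := 3 + 2 * m + n * (2 * (m + 1)) + lam * s₀ * (m + 1) + lam * D * s₀ with hX
  have hX0 : 0 < X := by (clear * - hD0 hlam hm0 hκ0; positivity)
  set δ : ℝ := 1 / X with hδ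
  have hδ0 : 0 < δ := by (clear * - hD0 hlam hm0 hκ0; positivity)
  have hδX : ∀ y, y ≤ X → y * δ ≤ 1 := by
    intro y hy
    rw [hδ, mul_one_div, div_le_one hX0]
    exact hy
  have hX1 : 0 ≤ lam * s₀ * (m + 1) := by (clear * - hD0 hlam hm0 hκ0; positivity)
  have hX2 : 0 ≤ lam * D * s₀ := by (clear * - hD0 hlam hm0 hκ0; positivity)
  have hX3 : 0 ≤ n * (2 * (m + 1)) := by positivity
  have hδ1 : δ ≤ 1 := by simpa using hδX 1 (by linarith only [hX1, hX2, hX3, hm0])
  have hδB : δ < B := by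
    rw [hδ, hBdef]
    apply one_div_lt_one_div_of_lt (by positivity)
    linarith only [hX1, hX2, hX3]
  have hδn : n * δ < B := by
    rw [hδ, hBdef, mul_one_div, div_lt_div_iff₀ hX0 (by positivity)]
    linarith only [hX1, hX2, hm0]
  have hδ2 : lam / 2 * s₀ * (m + 1) * δ ≤ 1 := hδX _ (by linarith only [hX1, hX2, hX3, hm0])
  have hδ3 : lam * D * s₀ * δ ≤ 1 := hδX _ (by linarith only [hX1, hX3, hm0])
  set Nt : ℕ := ∑ a, N a with hNt
  refine ⟨Real.log (δ / s₀ ^ Nt) - CF / 4 * s₀, fun α hα => ?_⟩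
  obtain ⟨g, hgc, hg0, hgd⟩ := exists_solution (tF M lam B N) (tF_contDiff M lam B N).continuous CF
    hCF L hL0 hL α
  have hsmooth := contDiff_solution _ (tF_contDiff M lam B N) g hgc hgd
  -- basic functions
  let U : ℝ → ι → ℝ := fun s b => s ^ N b * Real.exp (g s b)
  let Xt : ℝ → ι → ℝ := fun s => tU B N s (g s)
  have hUnn : ∀ s, 0 ≤ s → ∀ b, 0 ≤ U s b := fun s hs b => by
    have := pow_nonneg hs (N b)
    positivity
  have hXtU : ∀ s, 0 ≤ s → (∀ b, U s b ≤ B) → Xt s = U s := by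
    intro s hs h
    ext b
    exact chi_eq hB (by rw [abs_of_nonneg (hUnn s hs b)]; exact h b)
  have hgcb : ∀ b, Continuous fun s => g s b := fun b => (continuous_apply b).comp hgc
  have hXtc : ∀ b, Continuous fun s => Xt s b := fun b => by
    have h1 := hgcb b
    have h2 : Continuous (chi B) := (chi_contDiff B).continuous
    exact h2.comp (by fun_prop)
  have hUc : ∀ b, Continuous fun s => U s b := fun b => by
    have h1 := hgcb b
    fun_prop
  -- the vector `Z`
  let Z : ℝ → ι → ℝ := fun s b => c b + ∫ σ in (0:ℝ)..s, lam / 2 * pq M (Xt σ) b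
  have hpqc : ∀ b, Continuous fun σ => lam / 2 * pq M (Xt σ) b := fun b => by
    unfold pq
    have := hXtc
    have h3 : Continuous fun σ => ∑ c, M b c * Xt σ c := by
      exact continuous_finsetSum _ fun c _ => continuous_const.mul (hXtc c)
    exact continuous_const.mul (((hXtc b).mul h3).sub (hXtc b))
  have hZd : ∀ s b, HasDerivAt (fun s => Z s b) (lam / 2 * pq M (Xt s) b) s := fun s b =>
    (intervalIntegral.integral_hasDerivAt_right ((hpqc b).intervalIntegrable _ _)
      ((hpqc b).stronglyMeasurableAtFilter _ _) (hpqc b).continuousAt).const_add (c b)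
  -- the derivative of `s g'`
  have hFc : Continuous fun σ => tF M lam B N σ (g σ) := by
    have h1 : Continuous fun σ : ℝ => ((σ, g σ) : ℝ × (ι → ℝ)) := by fun_prop
    exact (tF_contDiff M lam B N).continuous.comp h1
  have hsg : ∀ s, s • deriv g s = (1 / 4 : ℝ) • ∫ σ in (0:ℝ)..s, tF M lam B N σ (g σ) := by
    intro s
    rw [(hgd s).deriv, smul_comm]
    congr 1
    have := intervalIntegral.smul_integral_comp_mul_left (a := 0) (b := 1)
      (fun σ => tF M lam B N σ (g σ)) s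
    rw [this]
    simp
  have hsgd : ∀ s, HasDerivAt (fun s => s • deriv g s) ((1 / 4 : ℝ) • tF M lam B N s (g s)) s := by
    intro s
    have h1 : (fun s => s • deriv g s)
        = fun s => (1 / 4 : ℝ) • ∫ σ in (0:ℝ)..s, tF M lam B N σ (g σ) := funext hsg
    rw [h1]
    exact (intervalIntegral.integral_hasDerivAt_right (hFc.intervalIntegrable _ _)
      (hFc.stronglyMeasurableAtFilter _ _) hFc.continuousAt).const_smul (1 / 4 : ℝ)
  -- `M Z = P`
  have hMZ : ∀ s a, ∑ b, M a b * Z s b = 2 * (N a : ℝ) + 2 + 2 * (s * deriv g s a) := by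
    intro s a
    have h1 : ∀ s, HasDerivAt (fun s => ∑ b, M a b * Z s b - 2 * (s * deriv g s a)) 0 s := by
      intro s
      have h2 : HasDerivAt (fun s => ∑ b, M a b * Z s b)
          (∑ b, M a b * (lam / 2 * pq M (Xt s) b)) s :=
        HasDerivAt.fun_sum fun b _ => (hZd s b).const_mul _
      have h3 : HasDerivAt (fun s => s * deriv g s a) (1 / 4 * (lam * quad M (Xt s) a)) s := by
        have := (hasDerivAt_pi.1 (hsgd s)) a
        simpa [tF] using this
      have h4 := h2.sub (h3.const_mul 2)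
      refine h4.congr_deriv ?_
      unfold quad
      rw [Finset.mul_sum, Finset.mul_sum, Finset.mul_sum, ← Finset.sum_sub_distrib]
      exact Finset.sum_eq_zero fun b _ => by ring
    have h5 := is_const_of_deriv_eq_zero (f := fun s => ∑ b, M a b * Z s b - 2 * (s * deriv g s a))
      (fun s => (h1 s).differentiableAt) (fun s => (h1 s).deriv) s 0
    simp only [zero_mul, mul_zero, sub_zero] at h5
    have h6 : ∑ b, M a b * Z 0 b = 2 * (N a : ℝ) + 2 := by
      rw [← hc a]
      simp [Z]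
    linarith only [h5, h6]
  -- the functions `E`
  let E : ℝ → ι → ℝ := fun s b => s * U s b
  have hEd : ∀ s b, HasDerivAt (fun s => E s b) (1 / 2 * (U s b * ∑ c, M b c * Z s c)) s := by
    intro s b
    have h1 : HasDerivAt (fun s => g s b) (deriv g s b) s := by
      have := (hsmooth.differentiable (by simp) s).hasDerivAt
      exact (hasDerivAt_pi.1 this) b
    have h2 : HasDerivAt (fun s => s ^ (N b + 1) * Real.exp (g s b))
        (((N b + 1 : ℕ) : ℝ) * s ^ (N b) * Real.exp (g s b)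
          + s ^ (N b + 1) * (Real.exp (g s b) * deriv g s b)) s := by
      have h3 := (hasDerivAt_pow (N b + 1) s).mul h1.exp
      exact h3
    have h4 : (fun s => E s b) = fun s => s ^ (N b + 1) * Real.exp (g s b) := by
      ext s
      simp only [E, U]
      ring
    rw [h4, hMZ]
    refine h2.congr_deriv ?_
    simp only [U]
    push_cast
    ring
  have hEc : ∀ b, Continuous fun s => E s b := fun b =>
    continuous_iff_continuousAt.2 fun s => (hEd s b).continuousAt
  have hEnn : ∀ s, 0 ≤ s → ∀ b, 0 ≤ E s b := fun s hs b => mul_nonneg hs (hUnn s hs b)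
  have hZc : ∀ b, Continuous fun s => Z s b := fun b =>
    continuous_iff_continuousAt.2 fun s => (hZd s b).continuousAt
  -- the energy
  let Hh : ℝ → ℝ := fun s => 1 / 2 * bil M d (Z s) (Z s) + lam * ∑ a, d a * E s a
    - lam / 2 * (s⁻¹ * bil M d (E s) (E s))
  have hHd : ∀ s, 0 < s → (∀ b, U s b ≤ B) →
      HasDerivAt Hh (lam / 2 * ((s ^ 2)⁻¹ * bil M d (E s) (E s))) s := by
    intro s hs hU
    have hX := hXtU s hs.le hU
    have h1 := (hasDerivAt_bil M d (hZd s) (hZd s)).const_mul (1 / 2)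
    have h2 : HasDerivAt (fun s => lam * ∑ a, d a * E s a)
        (lam * ∑ a, d a * (1 / 2 * (U s a * ∑ c, M a c * Z s c))) s :=
      (HasDerivAt.fun_sum fun a _ => (hEd s a).const_mul (d a)).const_mul lam
    have h3 := (((hasDerivAt_inv hs.ne').mul (hasDerivAt_bil M d (hEd s) (hEd s))).const_mul
      (lam / 2))
    have h4 := (h1.add h2).sub h3
    refine h4.congr_deriv ?_
    rw [bil_comm M d hsym (Z s), bil_comm M d hsym (E s) (fun b => 1 / 2 * (U s b * ∑ c, M b c * Z s c))]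
    have h5 : bil M d (fun b => lam / 2 * pq M (Xt s) b) (Z s)
        + lam * ∑ a, d a * (1 / 2 * (U s a * ∑ c, M a c * Z s c))
        = lam * (s⁻¹ * bil M d (fun b => 1 / 2 * (U s b * ∑ c, M b c * Z s c)) (E s)) := by
      rw [hX]
      unfold bil pq
      rw [Finset.mul_sum, Finset.mul_sum, Finset.mul_sum, ← Finset.sum_add_distrib]
      refine Finset.sum_congr rfl fun a _ => ?_
      have h6 : ∑ b, M a b * E s b = s * ∑ b, M a b * U s b := by
        rw [Finset.mul_sum]
        exact Finset.sum_congr rfl fun b _ => by simp only [E]; ring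
      rw [h6]
      field_simp
      ring
    have h7 : -(s ^ 2)⁻¹ * bil M d (E s) (E s) + s⁻¹ * (bil M d (fun b => 1 / 2 * (U s b * ∑ c, M b c * Z s c)) (E s)
        + bil M d (fun b => 1 / 2 * (U s b * ∑ c, M b c * Z s c)) (E s)) =
        -((s ^ 2)⁻¹ * bil M d (E s) (E s))
        + 2 * (s⁻¹ * bil M d (fun b => 1 / 2 * (U s b * ∑ c, M b c * Z s c)) (E s)) := by ring
    linear_combination h5
  -- bounds for the energy
  have hHlow : ∀ s, 0 < s → (∀ b, U s b ≤ B) → lam / 2 * ∑ a, d a * E s a ≤ Hh s := by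
    intro s hs hU
    have h1 := hpos (Z s)
    have h2 : s⁻¹ * bil M d (E s) (E s) ≤ ∑ a, d a * E s a := by
      unfold bil
      rw [Finset.mul_sum]
      refine Finset.sum_le_sum fun a _ => ?_
      have h3 : s⁻¹ * ∑ b, M a b * E s b ≤ 1 := by
        have h4 : s⁻¹ * ∑ b, M a b * E s b = ∑ b, M a b * U s b := by
          rw [Finset.mul_sum]
          refine Finset.sum_congr rfl fun b _ => ?_
          simp only [E]
          field_simp
        rw [h4]
        refine (le_abs_self _).trans ((abs_mulVec_le M a (U s) hB.le fun b => ?_).trans (by linarith only [hmB]))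
        rw [abs_of_nonneg (hUnn s hs.le b)]
        exact hU b
      calc s⁻¹ * (d a * E s a * ∑ b, M a b * E s b) = d a * E s a * (s⁻¹ * ∑ b, M a b * E s b) := by
            ring
        _ ≤ d a * E s a * 1 := by
            have := mul_nonneg (hd a).le (hEnn s hs.le a)
            gcongr
        _ = d a * E s a := mul_one _
    have h5 : lam / 2 * (s⁻¹ * bil M d (E s) (E s)) ≤ lam / 2 * ∑ a, d a * E s a := by gcongr
    simp only [Hh]
    linarith only [h1, h5]
  have hEH : ∀ s, 0 < s → (∀ b, U s b ≤ B) → ∀ a, E s a ≤ 2 / (lam * d a) * Hh s := by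
    intro s hs hU a
    have h1 := hHlow s hs hU
    have h2 : d a * E s a ≤ ∑ a, d a * E s a :=
      Finset.single_le_sum (f := fun a => d a * E s a)
        (fun b _ => mul_nonneg (hd b).le (hEnn s hs.le b)) (Finset.mem_univ a)
    have h3 : lam / 2 * (d a * E s a) ≤ Hh s := le_trans (by gcongr) h1
    have h4 := hd a
    rw [div_mul_eq_mul_div, le_div_iff₀ (by positivity)]
    linarith only [h3]
  have hHnn : ∀ s, 0 < s → (∀ b, U s b ≤ B) → 0 ≤ Hh s := by
    intro s hs hU
    refine le_trans ?_ (hHlow s hs hU)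
    have : 0 ≤ ∑ a, d a * E s a :=
      Finset.sum_nonneg fun b _ => mul_nonneg (hd b).le (hEnn s hs.le b)
    (clear * - hlam this; positivity)
  have hEκ : ∀ s, 0 < s → (∀ b, U s b ≤ B) → ∀ a, E s a ≤ κ * Hh s := by
    intro s hs hU a
    refine (hEH s hs hU a).trans ?_
    have h1 := hHnn s hs hU
    gcongr
    exact Finset.single_le_sum (f := fun a => 2 / (lam * d a))
      (fun b _ => by have := hd b; positivity) (Finset.mem_univ a)
  have hHd_le : ∀ s, 0 < s → (∀ b, U s b ≤ B) → Hh s ≤ H1 →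
      lam / 2 * ((s ^ 2)⁻¹ * bil M d (E s) (E s)) ≤ q * H1 ^ 2 * (s ^ 2)⁻¹ := by
    intro s hs hU hH
    have h0 := hHnn s hs hU
    have h1 : ∀ a, |E s a| ≤ κ * H1 := by
      intro a
      rw [abs_of_nonneg (hEnn s hs.le a)]
      exact (hEκ s hs hU a).trans (by gcongr)
    have h2 := (le_abs_self _).trans (abs_bil_le M d hd (E s) (E s) (by (clear * - hD0 hm0 hκ0; positivity)) (by (clear * - hD0 hm0 hκ0; positivity))
      h1 h1)
    calc lam / 2 * ((s ^ 2)⁻¹ * bil M d (E s) (E s))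
        ≤ lam / 2 * ((s ^ 2)⁻¹ * ((∑ a, d a) * (κ * H1) * (msum M * (κ * H1)))) := by gcongr
      _ = q * H1 ^ 2 * (s ^ 2)⁻¹ := by
          rw [hq, ← hD, ← hm]
          ring
  -- the interval `[0, s₀]`
  have hU0 : ∀ s, 0 ≤ s → s ≤ s₀ → ∀ b, U s b ≤ δ := by
    intro s hs hs1 b
    have h1 : ‖g s - g 0‖ ≤ CF / 4 * (s - 0) := by
      refine norm_image_sub_le_of_norm_deriv_le_segment' (f := g) (a := 0) (b := s)
        (f' := fun s => (1 / 4 : ℝ) • ∫ τ in (0:ℝ)..1, tF M lam B N (s * τ) (g (s * τ)))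
        (fun x _ => (hgd x).hasDerivWithinAt) (fun x _ => ?_) s ⟨hs, le_rfl⟩
      rw [norm_smul, Real.norm_of_nonneg (by norm_num : (0:ℝ) ≤ 1 / 4)]
      have h2 := intervalIntegral.norm_integral_le_of_norm_le_const (a := 0) (b := 1) (C := CF)
        (f := fun τ : ℝ => tF M lam B N (x * τ) (g (x * τ))) (fun τ _ => hCF _ _)
      rw [sub_zero, abs_one, mul_one] at h2
      linarith only [h2]
    have h2 : g s b ≤ α b + CF / 4 * s₀ := by
      have h3 := norm_le_pi_norm (g s - g 0) b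
      rw [hg0] at h3 h1
      have h4 : g s b - α b ≤ CF / 4 * s := by
        have := (le_abs_self _).trans (h3.trans h1)
        simpa using this
      have h5 : CF / 4 * s ≤ CF / 4 * s₀ := by gcongr
      linarith only [h4, h5]
    have h3 : Real.exp (g s b) ≤ δ / s₀ ^ Nt := by
      rw [← Real.exp_log (show 0 < δ / s₀ ^ Nt by (clear * - hD0 hlam hm0 hκ0; positivity))]
      apply Real.exp_le_exp.2
      have := hα b
      linarith only [h2, this]
    have h4 : s ^ N b ≤ s₀ ^ Nt :=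
      calc s ^ N b ≤ s₀ ^ N b := by gcongr
        _ ≤ s₀ ^ Nt := pow_le_pow_right₀ hs₀1
            (Finset.single_le_sum (f := N) (fun _ _ => Nat.zero_le _) (Finset.mem_univ b))
    calc U s b = s ^ N b * Real.exp (g s b) := rfl
      _ ≤ s₀ ^ Nt * (δ / s₀ ^ Nt) := by gcongr
      _ = δ := by field_simp
  -- the energy at `s₀`
  have hUB0 : ∀ s, 0 ≤ s → s ≤ s₀ → ∀ b, U s b ≤ B := fun s h1 h2 b =>
    (hU0 s h1 h2 b).trans hδB.le
  have hZ0 : ∀ b, |Z s₀ b| ≤ cb + 1 := by
    intro b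
    have h1 : |∫ σ in (0:ℝ)..s₀, lam / 2 * pq M (Xt σ) b| ≤ lam / 2 * ((m + 1) * δ) * s₀ := by
      have h2 := intervalIntegral.norm_integral_le_of_norm_le_const (a := 0) (b := s₀)
        (C := lam / 2 * ((m + 1) * δ)) (f := fun σ => lam / 2 * pq M (Xt σ) b) (fun σ hσ => ?_)
      · rw [sub_zero, abs_of_pos hs₀0, Real.norm_eq_abs] at h2
        exact h2
      · rw [uIoc_of_le hs₀0.le] at hσ
        rw [Real.norm_eq_abs, abs_mul, abs_of_pos (by positivity : 0 < lam / 2),
          hXtU σ hσ.1.le (hUB0 σ hσ.1.le hσ.2)]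
        have h3 := abs_pq_le M (U σ) (R := δ) hδ0.le (fun b => by
          rw [abs_of_nonneg (hUnn σ hσ.1.le b)]
          exact hU0 σ hσ.1.le hσ.2 b) b
        have h4 : δ * (msum M * δ) + δ ≤ (m + 1) * δ := by
          rw [← hm]
          have : δ * (m * δ) ≤ 1 * (m * δ) := by gcongr
          linarith only [this]
        gcongr
        exact h3.trans h4
    have h5 : |c b| ≤ cb :=
      Finset.single_le_sum (f := fun a => |c a|) (fun _ _ => abs_nonneg _) (Finset.mem_univ b)
    calc |Z s₀ b| ≤ |c b| + |∫ σ in (0:ℝ)..s₀, lam / 2 * pq M (Xt σ) b| := abs_add_le _ _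
      _ ≤ cb + lam / 2 * ((m + 1) * δ) * s₀ := by gcongr
      _ = cb + lam / 2 * s₀ * (m + 1) * δ := by ring
      _ ≤ cb + 1 := by gcongr
  have hHs₀ : Hh s₀ ≤ H0 := by
    have h1 := (le_abs_self _).trans (abs_bil_le M d hd (Z s₀) (Z s₀) (by positivity) (by positivity)
      hZ0 hZ0)
    have h2 : lam * ∑ a, d a * E s₀ a ≤ 1 := by
      calc lam * ∑ a, d a * E s₀ a ≤ lam * ∑ a, d a * (s₀ * δ) := by
            gcongr with a
            · exact (hd a).le
            · simp only [E]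
              gcongr
              exact hU0 s₀ hs₀0.le le_rfl a
        _ = lam * D * s₀ * δ := by rw [← Finset.sum_mul, hD]; ring
        _ ≤ 1 := hδ3
    have h3 : 0 ≤ lam / 2 * (s₀⁻¹ * bil M d (E s₀) (E s₀)) := by
      have := hpos (E s₀)
      (clear * - hD0 hlam hm0 hκ0 this; positivity)
    simp only [Hh]
    rw [hH0]
    have h4 : 1 / 2 * bil M d (Z s₀) (Z s₀) ≤ 1 / 2 * (D * (cb + 1) * (m * (cb + 1))) := by
      gcongr
    linarith only [h1, h2, h3]
  -- the bootstrap
  have hHcont : ContinuousOn Hh (Ici s₀) := by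
    intro s hs
    have hs' : s ≠ 0 := (hs₀0.trans_le hs).ne'
    have h1 : ContinuousAt (fun s => bil M d (Z s) (Z s)) s :=
      (hasDerivAt_bil M d (hZd s) (hZd s)).continuousAt
    have h2 : ContinuousAt (fun s => bil M d (E s) (E s)) s :=
      (hasDerivAt_bil M d (hEd s) (hEd s)).continuousAt
    have h3 : ContinuousAt (fun s => ∑ a, d a * E s a) s :=
      (HasDerivAt.fun_sum fun a _ => (hEd s a).const_mul (d a)).continuousAt
    have h4 : ContinuousAt (fun s : ℝ => s⁻¹) s := continuousAt_inv₀ hs'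
    exact (((h1.const_mul _).add (h3.const_mul _)).sub ((h4.mul h2).const_mul _)).continuousWithinAt
  have hUsum : ∀ s, 0 ≤ s → ∑ b, U s b ≤ B → ∀ b, U s b ≤ B := fun s hs h b =>
    (Finset.single_le_sum (f := fun b => U s b) (fun c _ => hUnn s hs c) (Finset.mem_univ b)).trans h
  have hboot := continuity_induction (φ := Hh) (ψ := fun s => ∑ b, U s b) (s₀ := s₀) (cφ := H1)
    (cψ := B) hHcont (continuous_finsetSum _ fun b _ => hUc b).continuousOn
    ⟨by linarith only [hHs₀], by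
      calc ∑ b, U s₀ b ≤ ∑ _b : ι, δ := Finset.sum_le_sum fun b _ => hU0 s₀ hs₀0.le le_rfl b
        _ = n * δ := by simp [hn]
        _ < B := hδn⟩ (by
    intro s hs hgood
    have hsp : 0 < s := hs₀0.trans_le hs
    have hUg : ∀ σ ∈ Icc s₀ s, ∀ b, U σ b ≤ B := fun σ hσ =>
      hUsum σ (hs₀0.le.trans hσ.1) (hgood σ hσ).2
    have hanti : AntitoneOn (fun σ => Hh σ + q * H1 ^ 2 * σ⁻¹) (Icc s₀ s) := by
      have hder : ∀ σ ∈ interior (Icc s₀ s), HasDerivAt (fun σ => Hh σ + q * H1 ^ 2 * σ⁻¹)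
          (lam / 2 * ((σ ^ 2)⁻¹ * bil M d (E σ) (E σ)) + q * H1 ^ 2 * (-(σ ^ 2)⁻¹)) σ := by
        intro σ hσ
        have hσ' := interior_subset hσ
        have hσ0 : 0 < σ := hs₀0.trans_le hσ'.1
        exact (hHd σ hσ0 (hUg σ hσ')).add ((hasDerivAt_inv hσ0.ne').const_mul _)
      refine antitoneOn_of_deriv_nonpos (convex_Icc _ _) ?_ (fun σ hσ =>
        (hder σ hσ).differentiableAt.differentiableWithinAt) fun σ hσ => ?_
      · refine (hHcont.mono fun x hx => hx.1).add ?_
        refine continuousOn_const.mul (continuousOn_inv₀.mono fun x hx => ?_)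
        exact (hs₀0.trans_le hx.1).ne'
      · rw [(hder σ hσ).deriv]
        have hσ' := interior_subset hσ
        have hσ0 : 0 < σ := hs₀0.trans_le hσ'.1
        have := hHd_le σ hσ0 (hUg σ hσ') (hgood σ hσ').1
        linarith only [this]
    have h1 := hanti ⟨le_rfl, hs⟩ ⟨hs, le_rfl⟩ hs
    simp only at h1
    have h2 : 0 ≤ q * H1 ^ 2 * s⁻¹ := by (clear * - hD0 hlam hm0 hsp; positivity)
    have h3 : q * H1 ^ 2 * s₀⁻¹ ≤ 1 / 2 := by rwa [← div_eq_mul_inv]
    have h4 : Hh s < H1 := by linarith only [h1, h2, h3, hHs₀]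
    refine ⟨h4, ?_⟩
    have hUs := hUg s ⟨hs, le_rfl⟩
    have h5 : ∑ b, E s b ≤ κ * Hh s := by
      rw [hκ, Finset.sum_mul]
      exact Finset.sum_le_sum fun b _ => hEH s hsp hUs b
    have h6 : ∑ b, U s b = s⁻¹ * ∑ b, E s b := by
      rw [Finset.mul_sum]
      refine Finset.sum_congr rfl fun b _ => ?_
      simp only [E]
      field_simp
    have h7 : s⁻¹ ≤ s₀⁻¹ := by gcongr
    have h8 : κ * Hh s ≤ κ * H1 := by gcongr
    have h9 : 0 ≤ ∑ b, E s b := Finset.sum_nonneg fun b _ => hEnn s hsp.le b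
    calc ∑ b, U s b = s⁻¹ * ∑ b, E s b := h6
      _ ≤ s₀⁻¹ * (κ * H1) := by gcongr; exact h5.trans h8
      _ = κ * H1 / s₀ := by rw [div_eq_mul_inv, mul_comm]
      _ ≤ B / 2 := hκs
      _ < B := by linarith only [hδ0, hδB])
  have hUall : ∀ s, 0 ≤ s → ∀ b, U s b ≤ B := by
    intro s hs b
    rcases le_total s s₀ with h | h
    · exact hUB0 s hs h b
    · exact hUsum s hs (hboot s h).2.le b
  -- integrability of the densities
  have hHall : ∀ s, s₀ ≤ s → ∀ b, Z s b ^ 2 ≤ 2 * H1 / cc := by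
    intro s hs b
    have hsp : 0 < s := hs₀0.trans_le hs
    have hU := hUall s hsp.le
    have h1 : bil M d (Z s) (Z s) ≤ 2 * H1 := by
      have h2 := (hboot s hs).1.le
      have h3 : lam / 2 * (s⁻¹ * bil M d (E s) (E s)) ≤ lam * ∑ a, d a * E s a := by
        have h4 : s⁻¹ * bil M d (E s) (E s) ≤ ∑ a, d a * E s a := by
          unfold bil
          rw [Finset.mul_sum]
          refine Finset.sum_le_sum fun a _ => ?_
          have h3 : s⁻¹ * ∑ b, M a b * E s b ≤ 1 := by
            have h4 : s⁻¹ * ∑ b, M a b * E s b = ∑ b, M a b * U s b := by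
              rw [Finset.mul_sum]
              refine Finset.sum_congr rfl fun b _ => ?_
              simp only [E]
              field_simp
            rw [h4]
            refine (le_abs_self _).trans ((abs_mulVec_le M a (U s) hB.le fun b => ?_).trans
              (by linarith only [hmB]))
            rw [abs_of_nonneg (hUnn s hsp.le b)]
            exact hU b
          calc s⁻¹ * (d a * E s a * ∑ b, M a b * E s b)
              = d a * E s a * (s⁻¹ * ∑ b, M a b * E s b) := by ring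
            _ ≤ d a * E s a * 1 := by
                have := mul_nonneg (hd a).le (hEnn s hsp.le a)
                gcongr
            _ = d a * E s a := mul_one _
        have h5 : 0 ≤ ∑ a, d a * E s a :=
          Finset.sum_nonneg fun b _ => mul_nonneg (hd b).le (hEnn s hsp.le b)
        calc lam / 2 * (s⁻¹ * bil M d (E s) (E s)) ≤ lam / 2 * ∑ a, d a * E s a := by gcongr
          _ ≤ lam * ∑ a, d a * E s a := by nlinarith only [h5, hlam]
      simp only [Hh] at h2
      linarith only [h2, h3]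
    have h6 := (hcoer (Z s)).trans h1
    have h7 : Z s b ^ 2 ≤ ∑ a, Z s a ^ 2 :=
      Finset.single_le_sum (f := fun a => Z s a ^ 2) (fun _ _ => sq_nonneg _) (Finset.mem_univ b)
    rw [le_div_iff₀ hcc]
    calc Z s b ^ 2 * cc ≤ (∑ a, Z s a ^ 2) * cc := by gcongr
      _ = cc * ∑ a, Z s a ^ 2 := mul_comm _ _
      _ ≤ 2 * H1 := h6
  have hUint : ∀ s, 0 ≤ s → ∀ b, ∫ σ in (0:ℝ)..s, U σ b ≤ 4 / lam * (c b - Z s b) := by
    intro s hs b
    have h1 : Z s b - c b = ∫ σ in (0:ℝ)..s, lam / 2 * pq M (Xt σ) b := by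
      simp only [Z]
      ring
    have h2 : ∫ σ in (0:ℝ)..s, U σ b ≤ ∫ σ in (0:ℝ)..s, -(4 / lam) * (lam / 2 * pq M (Xt σ) b) := by
      refine intervalIntegral.integral_mono_on hs ((hUc b).intervalIntegrable _ _)
        ((continuous_const.mul (hpqc b)).intervalIntegrable _ _) fun σ hσ => ?_
      have hU := hUall σ hσ.1
      rw [hXtU σ hσ.1 hU]
      have h3 : ∑ c, M b c * U σ c ≤ 1 / 2 := by
        refine (le_abs_self _).trans ((abs_mulVec_le M b (U σ) hB.le fun b => ?_).trans hmB)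
        rw [abs_of_nonneg (hUnn σ hσ.1 b)]
        exact hU b
      have h4 : -(4 / lam) * (lam / 2 * pq M (U σ) b) = 2 * (U σ b - U σ b * ∑ c, M b c * U σ c) := by
        unfold pq
        field_simp
        ring
      rw [h4]
      have h5 := hUnn σ hσ.1 b
      nlinarith only [h3, h5]
    rw [intervalIntegral.integral_const_mul, ← h1] at h2
    linarith only [h2]
  have hInt : ∀ a, IntegrableOn (fun s => U s a) (Ioi 0) := by
    intro a
    refine integrableOn_Ioi_of_intervalIntegral_norm_bounded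
      (4 / lam * (|c a| + (2 * H1 / cc + 1))) 0 (b := fun i : ℝ => i) (l := atTop)
      (fun i => ((hUc a).integrableOn_Icc).mono_set Ioc_subset_Icc_self) tendsto_id ?_
    filter_upwards [Ici_mem_atTop s₀] with s hs
    have hs' : s₀ ≤ s := hs
    have hs0 : 0 ≤ s := hs₀0.le.trans hs'
    have h1 : ∫ σ in (0:ℝ)..s, ‖U σ a‖ = ∫ σ in (0:ℝ)..s, U σ a := by
      refine intervalIntegral.integral_congr fun σ hσ => ?_
      rw [uIcc_of_le hs0] at hσ
      exact Real.norm_of_nonneg (hUnn σ hσ.1 a)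
    rw [h1]
    refine (hUint s hs0 a).trans ?_
    have h2 := hHall s hs' a
    have h3 : -Z s a ≤ 2 * H1 / cc + 1 := by nlinarith only [h2, sq_nonneg (Z s a + 1)]
    have h4 := le_abs_self (c a)
    have h5 : c a - Z s a ≤ |c a| + (2 * H1 / cc + 1) := by linarith only [h3, h4]
    gcongr
  refine ⟨g, hsmooth, hg0, fun s hs => ?_, ⟨δ * s₀ + κ * H1, fun s hs a => ?_⟩, hInt⟩
  · have h1 := hsgd s
    have h2 : (1 / 4 : ℝ) • tF M lam B N s (g s) = (lam / 4) • quad M (U s) := by
      have h3 : tU B N s (g s) = U s := hXtU s hs (hUall s hs)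
      ext a
      simp only [tF, h3, Pi.smul_apply, smul_eq_mul]
      ring
    rw [h2] at h1
    exact h1
  · change U s a ≤ _
    rw [le_div_iff₀ hs]
    rcases le_total s s₀ with h | h
    · have h1 := hU0 s hs.le h a
      calc U s a * s ≤ δ * s₀ := by
            have := hUnn s hs.le a
            gcongr
        _ ≤ δ * s₀ + κ * H1 := by
            have : 0 ≤ κ * H1 := by (clear * - hD0 hm0 hκ0; positivity)
            linarith only [this]
    · have h1 := hEκ s hs (hUall s hs.le) a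
      have h2 : κ * Hh s ≤ κ * H1 := by
        have := (hboot s h).1.le
        gcongr
      have h3 : 0 ≤ δ * s₀ := by (clear * - hD0 hlam hm0 hκ0; positivity)
      have h4 : U s a * s = E s a := by simp only [E]; ring
      rw [h4]
      linarith only [h1, h2, h3]

end Pool.Agent.ChernSimons
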